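import Pool.Agent.LibNC21.Sent
import Pool.Agent.LibTk83.V2
import Pool.Agent.LibTk83.V5
import Pool.Agent.LibTk83.V13

/-!
Natural deduction in the Boolean-valued universe.
-/

set_option autoImplicit false

namespace Pool.Agent.LibNC21

open Pool.Agent.LibPlas90 Pool.Agent.LibPlas90.BSet Pool.Agent.LibTk83

section logic

variable {B : Type*} [CompleteBooleanAlgebra B] {a a' b c : B}

theorem F.cases {ι : Sort*} {f : ι → B} (h : c ≤ ⨆ i, f i)
    (h' : ∀ i d, d ≤ c → d ≤ f i → d ≤ b) : c ≤ b := by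
  calc c ≤ c ⊓ ⨆ i, f i := le_inf le_rfl h
    _ = ⨆ i, c ⊓ f i := inf_iSup_eq _ _
    _ ≤ b := iSup_le fun i => h' i _ inf_le_left inf_le_right

theorem F.or_cases (h : c ≤ a ⊔ a') (h1 : ∀ d, d ≤ c → d ≤ a → d ≤ b)
    (h2 : ∀ d, d ≤ c → d ≤ a' → d ≤ b) : c ≤ b := by
  calc c ≤ c ⊓ (a ⊔ a') := le_inf le_rfl h
    _ = (c ⊓ a) ⊔ (c ⊓ a') := inf_sup_left _ _ _
    _ ≤ b := sup_le (h1 _ inf_le_left inf_le_right) (h2 _ inf_le_left inf_le_right)

theorem F.mp (h : c ≤ a ⇨ b) (ha : c ≤ a) : c ≤ b := (le_inf h ha).trans himp_inf_le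

theorem F.intro (h : ∀ d, d ≤ c → d ≤ a → d ≤ b) : c ≤ a ⇨ b :=
  le_himp_iff.2 (h _ inf_le_left inf_le_right)

theorem F.em (a : B) (h1 : ∀ d, d ≤ c → d ≤ a → d ≤ b) (h2 : ∀ d, d ≤ c → d ≤ aᶜ → d ≤ b) :
    c ≤ b := F.or_cases (a := a) (a' := aᶜ) (by rw [sup_compl_eq_top]; exact le_top) h1 h2

theorem F.absurd (h : c ≤ a) (h' : c ≤ aᶜ) : c ≤ b :=
  (le_inf h h').trans (by rw [inf_compl_self]; exact bot_le)

theorem F.byContra (h : ∀ d, d ≤ c → d ≤ bᶜ → d ≤ ⊥) : c ≤ b :=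
  F.em b (fun _ _ h2 => h2) fun d h1 h2 => (h d h1 h2).trans bot_le

theorem F.not_intro (h : ∀ d, d ≤ c → d ≤ a → d ≤ ⊥) : c ≤ aᶜ := by
  rw [← himp_bot]
  exact F.intro h

theorem F.top (h : a = ⊤) : c ≤ a := by rw [h]; exact le_top

end logic

variable {B : Type} [CompleteBooleanAlgebra B]

theorem F.ext {φ : BSet B → B} (h : Ext φ) {x y : BSet B} {c : B} (h1 : c ≤ eq x y)
    (h2 : c ≤ φ x) : c ≤ φ y := (le_inf h1 h2).trans (h x y)

theorem F.symm {x y : BSet B} {c : B} (h : c ≤ eq x y) : c ≤ eq y x := by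
  rw [eq_symm]
  exact h

theorem F.trans {x y z : BSet B} {c : B} (h : c ≤ eq x y) (h' : c ≤ eq y z) : c ≤ eq x z :=
  (le_inf h h').trans (eq_trans x y z)

theorem F.refl (x : BSet B) {c : B} : c ≤ eq x x := F.top (eq_refl x)

theorem F.all_elim {R : BSet B} {φ : BSet B → B} {x : BSet B} {c : B} (h : c ≤ all R φ)
    (hx : c ≤ mem x R) : c ≤ φ x := F.mp (h.trans (iInf_le _ x)) hx

theorem F.all_intro {R : BSet B} {φ : BSet B → B} {c : B}
    (h : ∀ x d, d ≤ c → d ≤ mem x R → d ≤ φ x) : c ≤ all R φ :=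
  le_iInf fun x => F.intro (h x)

theorem F.ex_intro {R : BSet B} {φ : BSet B → B} {c : B} (x : BSet B) (hx : c ≤ mem x R)
    (h : c ≤ φ x) : c ≤ ex R φ := le_iSup_of_le x (le_inf hx h)

theorem F.ex_cases {R : BSet B} {φ : BSet B → B} {c b : B} (h : c ≤ ex R φ)
    (h' : ∀ x d, d ≤ c → d ≤ mem x R → d ≤ φ x → d ≤ b) : c ≤ b :=
  F.cases h fun x d h1 h2 => h' x d h1 (h2.trans inf_le_left) (h2.trans inf_le_right)

theorem F.mem_sub {x y t : BSet B} {c : B} (h : c ≤ sub x y) (ht : c ≤ mem t x) : c ≤ mem t y :=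
  F.all_elim (φ := fun t => mem t y) h ht

theorem F.mem_l {x y R : BSet B} {c : B} (h : c ≤ eq x y) (hx : c ≤ mem x R) : c ≤ mem y R :=
  F.ext (Ext.mem_left R) h hx

theorem F.mem_r {x R S : BSet B} {c : B} (h : c ≤ eq R S) (hx : c ≤ mem x R) : c ≤ mem x S :=
  F.ext (Ext.mem_right x) h hx

theorem F.eq_intro {x y : BSet B} {c : B} (h1 : ∀ t d, d ≤ c → d ≤ mem t x → d ≤ mem t y)
    (h2 : ∀ t d, d ≤ c → d ≤ mem t y → d ≤ mem t x) : c ≤ eq x y :=
  le_eq_of_forall x y c (fun t => h1 t _ inf_le_left inf_le_right)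
    (fun t => h2 t _ inf_le_left inf_le_right)

section ck

variable {J : Type} [LinearOrder J] [WellFoundedLT J]

theorem F.ck_cases {x : BSet B} {c b : B} (h : c ≤ mem x (ck B J))
    (h' : ∀ (j : J) (d : B), d ≤ c → d ≤ eq x (chk j) → d ≤ b) : c ≤ b := by
  rw [mem_ck] at h
  exact F.cases h h'

theorem F.mem_chk_ck (j : J) {c : B} : c ≤ mem (chk j) (ck B J) :=
  F.top (Pool.Agent.LibTk83.mem_chk_ck j)

theorem F.eq_chk_elim {i j : J} {c b : B} (h : c ≤ eq (chk i) (chk j)) (hij : i ≠ j) : c ≤ b := by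
  rw [eq_chk hij] at h
  exact h.trans bot_le

theorem F.mem_chk_cases {x : BSet B} {i : J} {c b : B} (h : c ≤ mem x (chk i))
    (h' : ∀ j, j < i → ∀ d, d ≤ c → d ≤ eq x (chk j) → d ≤ b) : c ≤ b := by
  rw [mem_chk] at h
  exact F.cases h fun j d h1 h2 => F.cases h2 fun hj d' h3 h4 => h' j hj d' (h3.trans h1) h4

theorem F.mem_chk_of_lt {i j : J} (h : j < i) {c : B} : c ≤ mem (chk j) (chk i) :=
  F.top (Pool.Agent.LibTk83.mem_chk_of_lt h)

theorem mem_chk_chk_of_not {i j : J} (h : ¬ j < i) : mem (chk j : BSet B) (chk i) = ⊥ := by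
  rw [mem_chk]
  refine le_bot_iff.1 (iSup₂_le fun l hl => ?_)
  rw [eq_chk]
  intro h'
  exact h (h' ▸ hl)

end ck

/-! ### The formulas respect equality -/

theorem Ext_rel0 (x y : BSet B) : Ext (fun F => rel F x y) := by
  have h : (fun F : BSet B => rel F x y) = fun F => mem (opr x y) F := by
    funext F
    rw [rel_eq]
  rw [h]
  exact Ext.mem_right _

theorem F.rel1 {R x x' y : BSet B} {c : B} (h : c ≤ eq x x') (h' : c ≤ rel R x y) :
    c ≤ rel R x' y := F.ext (Ext.rel1 R y) h h'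

theorem F.rel2 {R x y y' : BSet B} {c : B} (h : c ≤ eq y y') (h' : c ≤ rel R x y) :
    c ≤ rel R x y' := F.ext (Ext.rel2 R x) h h'

theorem F.rel0 {R S x y : BSet B} {c : B} (h : c ≤ eq R S) (h' : c ≤ rel R x y) :
    c ≤ rel S x y := F.ext (Ext_rel0 x y) h h'

theorem Ext_below_2 (f k : BSet B) : Ext (fun n => below f n k) :=
  Ext.iSup fun v => Ext.inf (Ext.rel1 f v) (Ext.const _)

theorem Ext_below_3 (f n : BSet B) : Ext (fun k => below f n k) :=
  Ext.iSup fun v => Ext.inf (Ext.const _) (Ext.mem_left v)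

theorem Ext_rel3_0 (x y z : BSet B) : Ext (fun P => rel3 P x y z) := by
  have h : (fun P : BSet B => rel3 P x y z) = fun P => mem (opr (opr x y) z) P := by
    funext P
    rw [rel3_eq]
  rw [h]
  exact Ext.mem_right _

theorem Ext_small_2 (f d n : BSet B) : Ext (fun φ => small f φ d n) :=
  Ext.iSup fun h => Ext.inf (Ext.inf (Ext.all (R := d)
    (φ := fun φ a => ⨅ k : BSet B, rel φ n k ⇨ ⨆ v : BSet B, below f n v ⊓ rel3 h a k v)
    fun a => Ext.iInf fun k => Ext.himp (Ext_rel0 n k) (Ext.const _)) (Ext.const _)) (Ext.const _)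

theorem Ext_small_3 (f φ n : BSet B) : Ext (fun d => small f φ d n) :=
  Ext.iSup fun h => Ext.inf (Ext.inf (Ext_all_left _) (Ext_all_left _))
    (Ext_all (φ := fun d a => all d fun a' => ⨅ k : BSet B, ⨅ k' : BSet B, ⨅ v : BSet B,
      rel3 h a k v ⊓ rel3 h a' k' v ⇨ eq a a' ⊓ eq k k') fun a => Ext_all_left _)

theorem Ext_small_4 (f φ d : BSet B) : Ext (fun n => small f φ d n) :=
  Ext.iSup fun h => Ext.inf (Ext.inf (Ext.all (R := d)
    (φ := fun n a => ⨅ k : BSet B, rel φ n k ⇨ ⨆ v : BSet B, below f n v ⊓ rel3 h a k v)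
    fun a => Ext.iInf fun k => Ext.himp (Ext.rel1 φ k) (Ext.iSup fun v =>
      Ext.inf (Ext_below_2 f v) (Ext.const _))) (Ext.const _)) (Ext.const _)

theorem Ext_isNull_2 (f w : BSet B) : Ext (fun φ => isNull f φ w) := by
  refine Ext.inf (Ext.all (R := w) (φ := fun φ n => ⨅ k : BSet B, rel φ n k ⇨ below f n k)
    fun n => Ext.iInf fun k => Ext.himp (Ext_rel0 n k) (Ext.const _)) ?_
  refine Ext.all (R := w) (φ := fun φ d => ex w fun m => all w fun n => (mem n m)ᶜ ⇨ small f φ d n)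
    fun d => ?_
  refine Ext.ex (R := w) (φ := fun φ m => all w fun n => (mem n m)ᶜ ⇨ small f φ d n) fun m => ?_
  exact Ext.all (R := w) (φ := fun φ n => (mem n m)ᶜ ⇨ small f φ d n) fun n =>
    Ext.himp (Ext.const _) (Ext_small_2 f d n)

theorem Ext_isPt_2 (f w : BSet B) : Ext (fun x => isPt f x w) := by
  refine Ext.inf (Ext_all_left _) (Ext.all (R := w) (φ := fun x n => ⨆ k : BSet B,
    rel x n k ⊓ below f n k ⊓ ⨅ l : BSet B, rel x n l ⇨ eq l k) fun n => ?_)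
  exact Ext.iSup fun k => Ext.inf (Ext.inf (Ext_rel0 n k) (Ext.const _))
    (Ext.iInf fun l => Ext.himp (Ext_rel0 n l) (Ext.const _))

theorem Ext_meets_1 (φ w : BSet B) : Ext (fun x => meets x φ w) := by
  refine Ext.all (R := w) (φ := fun x m => ex w fun n => (mem n m)ᶜ ⊓
    ⨆ k : BSet B, rel x n k ⊓ rel φ n k) fun m => ?_
  refine Ext.ex (R := w) (φ := fun x n => (mem n m)ᶜ ⊓ ⨆ k : BSet B, rel x n k ⊓ rel φ n k)
    fun n => ?_
  exact Ext.inf (Ext.const _) (Ext.iSup fun k => Ext.inf (Ext_rel0 n k) (Ext.const _))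

theorem Ext_inIdeal_2 (f w : BSet B) : Ext (fun A => inIdeal f A w) :=
  Ext.inf (Ext_all_left _) (Ext.iSup fun φ => Ext.inf (Ext.const _) (Ext_all_left _))

theorem Ext_isSubideal_2 (f w : BSet B) : Ext (fun J => isSubideal f J w) := by
  refine Ext.inf (Ext_all_left _) (Ext_all (φ := fun J A => all J fun A' => ⨅ C : BSet B,
    (all C fun x => mem x A ⊔ mem x A') ⇨ mem C J) fun A => ?_)
  exact Ext_all (φ := fun J A' => ⨅ C : BSet B,
    (all C fun x => mem x A ⊔ mem x A') ⇨ mem C J) fun A' =>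
      Ext.iInf fun C => Ext.himp (Ext.const _) (Ext.mem_right C)

end Pool.Agent.LibNC21
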