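import Pool.Agent.LibNC21.Base
import Pool.Agent.LibTk83.V6
import Pool.Agent.LibTk83.V11
import Pool.Agent.LibMA42.Defs

/-!
The cardinalities of the sets `ω_1`, `ω_2`, ... in the Boolean-valued universe.
-/

set_option autoImplicit false

namespace Pool.Agent.LibNC21

open Pool.Agent.LibPlas90 Pool.Agent.LibPlas90.BSet Pool.Agent.LibTk83 Pool.Agent.LibMA42
open Cardinal

variable {B : Type} [CompleteBooleanAlgebra B]

section family

variable {J : Type} [LinearOrder J] [WellFoundedLT J]

/-- The name of the function `j ↦ G j`. -/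
noncomputable def fam (G : J → BSet B) : BSet B :=
  mk J (fun j => opr (chk j) (G j)) (fun _ => ⊤)

theorem rel_fam_cases {G : J → BSet B} {x y : BSet B} {c b : B} (h : c ≤ rel (fam G) x y)
    (h' : ∀ (j : J) (d : B), d ≤ c → d ≤ eq x (chk j) → d ≤ eq y (G j) → d ≤ b) : c ≤ b := by
  rw [rel_eq, fam, mem_mk] at h
  refine F.cases h fun j d hd h1 => ?_
  rw [top_inf_eq, eq_opr] at h1
  exact h' j d hd (h1.trans inf_le_left) (h1.trans inf_le_right)

theorem rel_fam_of {G : J → BSet B} {x y : BSet B} {c : B} (j : J) (h : c ≤ eq x (chk j))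
    (h' : c ≤ eq y (G j)) : c ≤ rel (fam G) x y := by
  rw [rel_eq, fam, mem_mk]
  refine le_iSup_of_le j ?_
  rw [top_inf_eq, eq_opr]
  exact le_inf h h'

theorem rel_fam_chk {G : J → BSet B} {y : BSet B} {c : B} {j : J}
    (h : c ≤ rel (fam G) (chk j) y) : c ≤ eq y (G j) := by
  refine rel_fam_cases h fun i d hd h1 h2 => ?_
  by_cases hij : j = i
  · subst hij
    exact h2
  · exact F.eq_chk_elim h1 hij

theorem isSeq_fam (G : J → BSet B) : isSeq (fam G) (ck B J) = ⊤ := by
  rw [← top_le_iff]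
  unfold isSeq
  refine F.all_intro fun x d _ hx => F.ck_cases hx fun j e he hj => ?_
  refine le_iSup_of_le (G j) (le_inf (rel_fam_of j hj (F.refl _)) (le_iInf fun T => ?_))
  refine F.intro fun u hu h1 => rel_fam_chk (F.rel1 (hu.trans hj) h1)

end family

section embeds

variable {J K : Type} [LinearOrder J] [WellFoundedLT J] [LinearOrder K] [WellFoundedLT K]

theorem embeds_of_injective (g : J → K) (hg : Function.Injective g) :
    embeds (ck B J) (ck B K) = ⊤ := by
  rw [← top_le_iff]
  refine le_iSup_of_le (fam fun j => chk (g j)) ?_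
  unfold isInj isMap
  refine le_inf (le_inf ?_ ?_) ?_
  · refine F.all_intro fun x d _ hx => F.ck_cases hx fun j e he hj => ?_
    exact F.ex_intro (chk (g j)) (F.mem_chk_ck _) (rel_fam_of j hj (F.refl _))
  · refine F.all_intro fun x d _ hx => F.all_intro fun y d1 _ _ => F.all_intro fun y' d2 _ _ =>
      F.intro fun e he h1 => ?_
    refine rel_fam_cases (h1.trans inf_le_left) fun j e1 he1 h2 h3 => ?_
    refine rel_fam_cases (he1.trans (h1.trans inf_le_right)) fun i e2 he2 h4 h5 => ?_
    by_cases hij : i = j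
    · subst hij
      exact F.trans (he2.trans h3) (F.symm h5)
    · exact F.eq_chk_elim (F.trans (F.symm h4) (he2.trans h2)) hij
  · refine F.all_intro fun x d _ hx => F.all_intro fun y d1 _ _ => F.all_intro fun y' d2 _ _ =>
      F.intro fun e he h1 => ?_
    refine rel_fam_cases (h1.trans inf_le_left) fun j e1 he1 h2 h3 => ?_
    refine rel_fam_cases (he1.trans (h1.trans inf_le_right)) fun i e2 he2 h4 h5 => ?_
    by_cases hij : i = j
    · subst hij
      exact F.trans (he2.trans h2) (F.symm h4)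
    · exact F.eq_chk_elim (F.trans (F.symm h5) (he2.trans h3)) (fun h => hij (hg h))

end embeds

theorem exists_uncountable_fiber {J K : Type} (g : J → K) (hK : ℵ₀ ≤ #K) (h : #K < #J) :
    ∃ k, ¬ Countable {j // g j = k} := by
  by_contra hc
  simp only [not_exists, not_not] at hc
  have h1 : #J = Cardinal.sum fun k : K => #{j // g j = k} := by
    rw [← Cardinal.mk_sigma]
    exact Cardinal.mk_congr (Equiv.sigmaFiberEquiv g).symm
  have h2 : #J ≤ #K * ℵ₀ := by
    rw [h1]
    refine (Cardinal.sum_le_sum _ (fun _ => ℵ₀) fun k => ?_).trans ?_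
    · have := hc k
      exact Cardinal.mk_le_aleph0
    · simp
  rw [Cardinal.mul_eq_left hK hK Cardinal.aleph0_ne_zero] at h2
  exact absurd (h.trans_le h2) (lt_irrefl _)

theorem mk_KK (n : ℕ) : #(KK n) = aleph (n + 1 : ℕ) := by
  rw [KK, II, mk_Gt]
  rfl

theorem mk_KK_lt {m n : ℕ} (h : m < n) : #(KK m) < #(KK n) := by
  rw [mk_KK, mk_KK, aleph_lt_aleph]
  exact_mod_cast Nat.succ_lt_succ h

theorem aleph0_le_mk_KK (n : ℕ) : ℵ₀ ≤ #(KK n) := by
  rw [mk_KK]
  exact aleph0_le_aleph _

theorem not_embeds {J K : Type} [LinearOrder J] [WellFoundedLT J] [LinearOrder K] [WellFoundedLT K]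
    (ccc : ∀ (J : Type) (x : J → B), (∀ j, x j ≠ ⊥) → (∀ i j, i ≠ j → x i ⊓ x j = ⊥) →
      Countable J) (hK : ℵ₀ ≤ #K) (h : #K < #J) : embeds (ck B J) (ck B K) = ⊥ := by
  rw [← le_bot_iff]
  refine iSup_le fun R => ?_
  by_contra hb
  have htot : ∀ j : J, ∃ k : K, isInj R (ck B J) (ck B K) ⊓ rel R (chk j) (chk k) ≠ ⊥ := by
    intro j
    by_contra hj
    simp only [not_exists, not_not] at hj
    refine hb ?_
    have h1 : isInj R (ck B J) (ck B K) ≤ ex (ck B K) fun y => rel R (chk j) y := by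
      have h2 : isInj R (ck B J) (ck B K) ≤ all (ck B J) fun x => ex (ck B K) fun y => rel R x y := by
        unfold isInj isMap
        exact inf_le_left.trans inf_le_left
      exact F.all_elim (φ := fun x => ex (ck B K) fun y => rel R x y) h2 (F.mem_chk_ck j)
    refine F.ex_cases h1 fun y d hd hy h2 => F.ck_cases hy fun k e he hk => ?_
    rw [← hj k]
    exact le_inf (he.trans hd) (F.rel2 hk (he.trans h2))
  choose g hg using htot
  obtain ⟨k, hk⟩ := exists_uncountable_fiber g hK h
  refine hk (ccc _ (fun j : {j // g j = k} => isInj R (ck B J) (ck B K) ⊓ rel R (chk j.1) (chk k))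
    (fun j => ?_) (fun i j hij => ?_))
  · have := hg j.1
    rwa [j.2] at this
  · rw [← le_bot_iff]
    have h2 : isInj R (ck B J) (ck B K) ≤ all (ck B J) fun x => all (ck B J) fun x' =>
        all (ck B K) fun y => rel R x y ⊓ rel R x' y ⇨ eq x x' := by
      unfold isInj
      exact inf_le_right
    have h3 := F.all_elim (h2) (F.mem_chk_ck i.1)
    have h4 := F.all_elim h3 (F.mem_chk_ck j.1)
    have h5 := F.all_elim h4 (F.mem_chk_ck k)
    have h6 := F.mp ((inf_le_left.trans inf_le_left).trans h5 : isInj R (ck B J) (ck B K) ⊓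
      rel R (chk i.1) (chk k) ⊓ (isInj R (ck B J) (ck B K) ⊓ rel R (chk j.1) (chk k)) ≤ _)
      (le_inf (inf_le_left.trans inf_le_right) (inf_le_right.trans inf_le_right))
    exact F.eq_chk_elim h6 fun he => hij (Subtype.ext he)

theorem smaller_KK (ccc : ∀ (J : Type) (x : J → B), (∀ j, x j ≠ ⊥) →
    (∀ i j, i ≠ j → x i ⊓ x j = ⊥) → Countable J) {m n : ℕ} (h : m < n) :
    smaller (ck B (KK m)) (ck B (KK n)) = ⊤ := by
  unfold smaller
  obtain ⟨g, hg⟩ : ∃ g : KK m → KK n, Function.Injective g := by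
    have := (mk_KK_lt h).le
    rw [Cardinal.le_def] at this
    obtain ⟨g⟩ := this
    exact ⟨g, g.injective⟩
  rw [embeds_of_injective g hg, not_embeds ccc (aleph0_le_mk_KK m) (mk_KK_lt h)]
  simp

end Pool.Agent.LibNC21
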