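import Pool.Agent.LibNC21.Ideal
import Pool.Agent.LibNC21.Card

/-!
In the Boolean-valued universe, `add(I_f) ≤ ℵ_1`.
-/

set_option autoImplicit false

namespace Pool.Agent.LibNC21

open Pool.Agent.LibPlas90 Pool.Agent.LibPlas90.BSet Pool.Agent.LibTk83 Pool.Agent.LibMA42

variable {B : Type} [CompleteBooleanAlgebra B] (f : ℕ → ℕ)

theorem addLe_ck {J : Type} [LinearOrder J] [WellFoundedLT J] (hf : ∀ n, 0 < f n)
    (τ : J → ℕ → ℕ → B) (hτ : ∀ i, NS f (τ i)) (hu : ∀ ψ, NS f ψ → ⨅ i, ale (τ i) ψ = ⊥) :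
    addLe (fN B f) (ck B J) (ck B ℕ) = ⊤ := by
  rw [← top_le_iff]
  unfold addLe
  refine le_iSup_of_le (fam fun i => br f (τ i)) (le_inf (le_inf (F.top (isSeq_fam _)) ?_) ?_)
  · refine F.all_intro fun t d _ ht => F.ck_cases ht fun i e _ hi => ?_
    refine le_iInf fun A => F.intro fun u hu h1 => ?_
    have h2 : u ≤ eq A (br f (τ i)) :=
      rel_fam_chk (G := fun i => br f (τ i)) (F.rel1 (hu.trans hi) h1)
    exact F.ext (Ext_inIdeal_2 (fN B f) (ck B ℕ)) (F.symm h2) (F.top (inIdeal_br f (hτ i)))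
  · refine le_iInf fun C => F.intro fun d _ hd => inIdeal_cases f hf hd fun ψ hψ e he h1 => ?_
    refine F.byContra fun u hu' h2 => ?_
    rw [← hu ψ hψ]
    refine le_iInf fun i => ale_of_sub f hf (hτ i) hψ ?_
    refine F.em (sub (br f (τ i)) C) (fun v hv h3 => ?_) (fun v hv h3 => ?_)
    · refine F.all_intro fun x v' hv' hx => ?_
      exact F.mem_sub (((hv'.trans hv).trans hu').trans h1) (F.mem_sub (hv'.trans h3) hx)
    · refine F.absurd (F.ex_intro (chk i) (F.mem_chk_ck i) ?_) (hv.trans h2)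
      exact le_iSup_of_le (br f (τ i)) (le_inf (rel_fam_of i (F.refl _) (F.refl _)) h3)

end Pool.Agent.LibNC21
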