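import Pool.Agent.LibNC21.Ideal
import Pool.Agent.LibMA42.C4d

/-!
In the Boolean-valued universe, `I_f` is not the union of few ideals properly contained in `I_f`.
-/

set_option autoImplicit false

namespace Pool.Agent.LibNC21

open Pool.Agent.LibPlas90 Pool.Agent.LibPlas90.BSet Pool.Agent.LibTk83 Pool.Agent.LibMA42

variable {B : Type} [CompleteBooleanAlgebra B] (f : ℕ → ℕ)

section

variable {J : Type} [LinearOrder J] [WellFoundedLT J] (G : BSet B)

/-- The truth value of: `[φ]` belongs to the ideal of number `i`. -/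
noncomputable def inJ (b : B) (i : J) (φ : ℕ → ℕ → B) : B :=
  b ⊓ ⨆ I : BSet B, rel G (chk i) I ⊓ mem (br f φ) I

variable {b : B}

theorem inJ_join (hf : ∀ n, 0 < f n) (hseq : b ≤ isSeq G (ck B J))
    (h : b ≤ all (ck B J) fun t => ⨅ I : BSet B, rel G t I ⇨
      isSubideal (fN B f) I (ck B ℕ) ⊓ ⨆ A : BSet B, inIdeal (fN B f) A (ck B ℕ) ⊓ (mem A I)ᶜ)
    (i : J) (σ τ φ : ℕ → ℕ → B) :
    inJ f G b i σ ⊓ inJ f G b i τ ⊓ ale φ (jn σ τ) ≤ inJ f G b i φ := by
  have hb : inJ f G b i σ ⊓ inJ f G b i τ ⊓ ale φ (jn σ τ) ≤ b :=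
    inf_le_left.trans (inf_le_left.trans inf_le_left)
  refine le_inf hb ?_
  have h1 : inJ f G b i σ ⊓ inJ f G b i τ ⊓ ale φ (jn σ τ) ≤
      ⨆ I : BSet B, rel G (chk i) I ⊓ mem (br f σ) I :=
    inf_le_left.trans (inf_le_left.trans inf_le_right)
  have h2 : inJ f G b i σ ⊓ inJ f G b i τ ⊓ ale φ (jn σ τ) ≤
      ⨆ I : BSet B, rel G (chk i) I ⊓ mem (br f τ) I :=
    inf_le_left.trans (inf_le_right.trans inf_le_right)
  have h3 : inJ f G b i σ ⊓ inJ f G b i τ ⊓ ale φ (jn σ τ) ≤ ale φ (jn σ τ) := inf_le_right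
  have h4 := F.all_elim (φ := fun n => ⨆ S : BSet B, rel G n S ⊓ ⨅ T : BSet B, rel G n T ⇨ eq T S)
    (hb.trans hseq) (F.mem_chk_ck i)
  refine F.cases h4 fun S d hd h5 => ?_
  have h5' : ∀ T, d ≤ rel G (chk i) T ⇨ eq T S := fun T =>
    (h5.trans inf_le_right).trans (iInf_le _ T)
  refine F.cases (hd.trans h1) fun I1 d1 hd1 h6 => ?_
  refine F.cases ((hd1.trans hd).trans h2) fun I2 d2 hd2 h7 => ?_
  have hS1 : d2 ≤ mem (br f σ) S := F.mem_r (F.mp ((hd2.trans hd1).trans (h5' I1))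
    (hd2.trans (h6.trans inf_le_left))) (hd2.trans (h6.trans inf_le_right))
  have hS2 : d2 ≤ mem (br f τ) S := F.mem_r (F.mp ((hd2.trans hd1).trans (h5' I2))
    (h7.trans inf_le_left)) (h7.trans inf_le_right)
  have hS3 : d2 ≤ rel G (chk i) S := ((hd2.trans hd1).trans h5).trans inf_le_left
  refine le_iSup_of_le S (le_inf hS3 ?_)
  have h8 := F.all_elim (φ := fun t => ⨅ I : BSet B, rel G t I ⇨
      isSubideal (fN B f) I (ck B ℕ) ⊓ ⨆ A : BSet B, inIdeal (fN B f) A (ck B ℕ) ⊓ (mem A I)ᶜ)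
    (hb.trans h) (F.mem_chk_ck i)
  have h9 := F.mp ((((hd2.trans hd1).trans hd).trans h8).trans (iInf_le _ S)) hS3
  exact subideal_join f hf (h9.trans inf_le_left) hS1 hS2
    (((hd2.trans hd1).trans hd).trans h3)

theorem inJ_proper (hf : ∀ n, 0 < f n) (hseq : b ≤ isSeq G (ck B J))
    (h : b ≤ all (ck B J) fun t => ⨅ I : BSet B, rel G t I ⇨
      isSubideal (fN B f) I (ck B ℕ) ⊓ ⨆ A : BSet B, inIdeal (fN B f) A (ck B ℕ) ⊓ (mem A I)ᶜ)
    (i : J) : ∃ φ, NS f φ ∧ b ⊓ inJ f G b i φ = ⊥ := by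
  obtain ⟨φ, hφ, h'⟩ := exists_outside (f := f) b (fun _ : Unit => inJ f G b i)
    (fun _ φ ψ hφ hψ => by
      refine le_trans ?_ (inJ_join f G hf hseq h i φ φ ψ)
      refine le_inf (le_inf inf_le_left inf_le_left) (inf_le_right.trans ?_)
      unfold ale jn
      simp)
    (by
      have h4 := F.all_elim (φ := fun n => ⨆ S : BSet B, rel G n S ⊓
        ⨅ T : BSet B, rel G n T ⇨ eq T S) hseq (F.mem_chk_ck i)
      refine F.cases h4 fun S d hd h5 => ?_
      have h5' : ∀ T, d ≤ rel G (chk i) T ⇨ eq T S := fun T =>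
        (h5.trans inf_le_right).trans (iInf_le _ T)
      have h8 := F.all_elim (φ := fun t => ⨅ I : BSet B, rel G t I ⇨
          isSubideal (fN B f) I (ck B ℕ) ⊓ ⨆ A : BSet B, inIdeal (fN B f) A (ck B ℕ) ⊓ (mem A I)ᶜ)
        h (F.mem_chk_ck i)
      have h9 := F.mp ((hd.trans h8).trans (iInf_le _ S)) (h5.trans inf_le_left)
      refine F.cases (h9.trans inf_le_right) fun A d1 hd1 h10 => ?_
      refine inIdeal_cases f hf (h10.trans inf_le_left) fun ψ hψ d2 hd2 h11 => ?_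
      refine le_iSup_of_le ψ (le_iSup_of_le hψ (F.not_intro fun d3 hd3 h12 => ?_))
      rw [iSup_const] at h12
      refine F.cases (h12.trans inf_le_right) fun T d4 hd4 h13 => ?_
      have hd41 : d4 ≤ d1 := hd4.trans (hd3.trans hd2)
      have h14 : d4 ≤ eq T S := F.mp ((hd41.trans hd1).trans (h5' T)) (h13.trans inf_le_left)
      have h15 : d4 ≤ mem (br f ψ) S := F.mem_r h14 (h13.trans inf_le_right)
      refine F.absurd ?_ ((hd41.trans h10).trans inf_le_right)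
      exact subideal_sub f ((hd41.trans (hd1.trans h9)).trans inf_le_left) h15
        ((hd4.trans hd3).trans h11))
  exact ⟨φ, hφ, h' ()⟩

theorem inJ_cov (h : b ≤ (⨆ A : BSet B, inIdeal (fN B f) A (ck B ℕ) ⊓
      all (ck B J) fun t => ⨅ I : BSet B, rel G t I ⇨ (mem A I)ᶜ)ᶜ)
    (φ : ℕ → ℕ → B) (hφ : NS f φ) : b ≤ ⨆ i : J, inJ f G b i φ := by
  refine F.byContra fun d hd h1 => ?_
  refine F.absurd (le_iSup_of_le (br f φ) (le_inf (F.top (inIdeal_br f hφ)) ?_)) (hd.trans h)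
  refine F.all_intro fun t d1 hd1 ht => F.ck_cases ht fun i d2 hd2 hi => ?_
  refine le_iInf fun I => F.intro fun d3 hd3 h2 => F.not_intro fun d4 hd4 h3 => ?_
  have hd : d4 ≤ d := ((hd4.trans hd3).trans hd2).trans hd1
  refine F.absurd (le_iSup_of_le i (le_inf (hd.trans ‹d ≤ b›) (le_iSup_of_le I
    (le_inf (F.rel1 ((hd4.trans hd3).trans hi) (hd4.trans h2)) h3)))) (hd.trans h1)

end

theorem noCover_ck (hf : ∀ n, 0 < f n) (M : Model B f) (k : ℕ) :
    noCover (fN B f) (ck B (KK k)) (ck B ℕ) = ⊤ := by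
  rw [← top_le_iff]
  unfold noCover
  refine le_iInf fun G => F.intro fun b0 _ h => F.byContra fun b hb h' => ?_
  have h1 := hb.trans (h.trans inf_le_left)
  have h2 := hb.trans (h.trans inf_le_right)
  exact (no_cover M k b (fun i => inJ f G b i)
    (fun i σ τ φ _ _ _ => inJ_join f G hf h1 h2 i σ τ φ)
    (fun φ hφ => inJ_cov f G h' φ hφ) (fun i => inJ_proper f G hf h1 h2 i)).le

end Pool.Agent.LibNC21
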