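import Pool.Agent.LibNC21.AddLe
import Pool.Agent.LibNC21.NoCover

/-!
The main theorem in the Boolean-valued universe.
-/

set_option autoImplicit false

namespace Pool.Agent.LibNC21

open Pool.Agent.LibPlas90 Pool.Agent.LibPlas90.BSet Pool.Agent.LibTk83 Pool.Agent.LibMA42

variable {B : Type} [CompleteBooleanAlgebra B] (f : ℕ → ℕ)

theorem rel_sq_chk {G : ℕ → BSet B} {n : ℕ} {S : BSet B} {c : B}
    (h : c ≤ rel (Pool.Agent.LibTk83.sq G) (chk n) S) : c ≤ eq S (G n) := by
  rwa [rel_sq] at h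

theorem Ext_noCover_2 (f w : BSet B) : Ext (fun S => noCover f S w) :=
  Ext.iInf fun G => Ext.himp (Ext.inf (Ext_all_left _) (Ext_all_left _))
    (Ext.iSup fun A => Ext.inf (Ext.const _) (Ext_all_left _))

theorem Ext_addLe_2 (f w : BSet B) : Ext (fun S => addLe f S w) :=
  Ext.iSup fun G => Ext.inf (Ext.inf (Ext_all_left _) (Ext_all_left _))
    (Ext.iInf fun C => Ext.himp (Ext.const _) (Ext_ex_left _))

theorem Ext_embeds_right (X : BSet B) : Ext (fun Y => embeds X Y) :=
  Ext.iSup fun f => Ext_isInj_3 f X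

theorem Ext_smaller_1 (T : BSet B) : Ext (fun S => smaller S T) :=
  Ext.inf (Ext_embeds_left T) (Ext.compl (Ext_embeds_right T))

theorem Ext_smaller_2 (S : BSet B) : Ext (fun T => smaller S T) :=
  Ext.inf (Ext_embeds_right S) (Ext.compl (Ext_embeds_left S))

theorem gap_eq_top (hf : ∀ n, 0 < f n) (M : Model B f) : gapSentence B f = ⊤ := by
  rw [← top_le_iff]
  unfold gapSentence
  refine le_iSup_of_le (ck B ℕ) (le_inf (F.top isOmega_ck) ?_)
  unfold isGap
  refine le_iSup_of_le (Pool.Agent.LibTk83.sq fun n => ck B (KK n))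
    (le_inf (le_inf (le_inf (F.top (isSeq_sq _)) ?_) ?_) ?_)
  · refine F.all_intro fun x d _ hx => F.all_intro fun y d1 hd1 hy => ?_
    refine le_iInf fun S => le_iInf fun T => F.intro fun d2 hd2 h1 => ?_
    refine F.ck_cases (hd2.trans (hd1.trans hx)) fun n d3 hd3 hn => ?_
    -- `y` is the smaller number
    have hy' : d3 ≤ mem y (chk n) := F.mem_r hn (hd3.trans (hd2.trans hy))
    refine F.mem_chk_cases hy' fun m hmn d4 hd4 hm => ?_
    have h2 : d4 ≤ eq S (ck B (KK m)) :=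
      rel_sq_chk (F.rel1 hm ((hd4.trans hd3).trans (h1.trans inf_le_left)))
    have h3 : d4 ≤ eq T (ck B (KK n)) :=
      rel_sq_chk (F.rel1 (hd4.trans hn) ((hd4.trans hd3).trans (h1.trans inf_le_right)))
    refine F.ext (Ext_smaller_1 T) (F.symm h2) (F.ext (Ext_smaller_2 _) (F.symm h3) ?_)
    exact F.top (smaller_KK M.ccc hmn)
  · refine F.all_intro fun x d _ hx => F.intro fun d1 hd1 h1 => le_iInf fun S => F.intro
      fun d2 hd2 h2 => ?_
    refine F.ck_cases ((hd2.trans hd1).trans hx) fun n d3 hd3 hn => ?_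
    by_cases hn0 : n = 0
    · subst hn0
      have h3 : d3 ≤ eq S (ck B (KK 0)) := rel_sq_chk (F.rel1 hn (hd3.trans h2))
      refine F.ext (Ext_addLe_2 _ _) (F.symm h3) ?_
      obtain ⟨τ, hτ, hu⟩ := M.unb
      exact F.top (addLe_ck f hf τ hτ hu)
    · have h3 : d3 ≤ isEmpty (chk n) := F.ext Ext_isEmpty hn ((hd3.trans hd2).trans h1)
      have h4 := h3.trans (iInf_le _ (chk 0))
      exact F.absurd (F.mem_chk_of_lt (Nat.pos_of_ne_zero hn0)) h4
  · refine F.all_intro fun x d _ hx => le_iInf fun S => F.intro fun d2 hd2 h2 => ?_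
    refine F.ck_cases (hd2.trans hx) fun n d3 hd3 hn => ?_
    have h3 : d3 ≤ eq S (ck B (KK n)) := rel_sq_chk (F.rel1 hn (hd3.trans h2))
    exact F.ext (Ext_noCover_2 _ _) (F.symm h3) (F.top (noCover_ck f hf M n))

end Pool.Agent.LibNC21
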