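import Pool.Agent.LibNC21.Pt
import Pool.Agent.LibTk83.X1

/-!
The ideal `I_f` and its subideals in the Boolean-valued universe.
-/

set_option autoImplicit false

namespace Pool.Agent.LibNC21

open Pool.Agent.LibPlas90 Pool.Agent.LibPlas90.BSet Pool.Agent.LibTk83 Pool.Agent.LibMA42

variable {B : Type} [CompleteBooleanAlgebra B] (f : ℕ → ℕ)

theorem inIdeal_br {φ : ℕ → ℕ → B} (hφ : NS f φ) :
    inIdeal (fN B f) (br f φ) (ck B ℕ) = ⊤ := by
  rw [← top_le_iff]
  unfold inIdeal
  refine le_inf (F.all_intro fun x d _ hx => (mem_br_le f hx).trans inf_le_left) ?_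
  refine le_iSup_of_le (slN φ) (le_inf (F.top (isNull_slN f hφ)) ?_)
  refine F.all_intro fun x d _ hx => le_meets ?_
  have h1 := (mem_br_le f hx).trans inf_le_right
  have h2 : rd (slN φ) = φ := by
    funext n k
    exact rd_slN φ n k
  rw [h2]
  exact h1

theorem inIdeal_cases (hf : ∀ n, 0 < f n) {A : BSet B} {c b : B}
    (h : c ≤ inIdeal (fN B f) A (ck B ℕ))
    (h' : ∀ φ : ℕ → ℕ → B, NS f φ → ∀ d, d ≤ c → d ≤ sub A (br f φ) → d ≤ b) : c ≤ b := by
  unfold inIdeal at h
  refine F.cases (h.trans inf_le_right) fun Φ d hd h1 => ?_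
  have hn := h1.trans inf_le_left
  refine h' _ (NS_cut f hn) d hd ?_
  refine F.all_intro fun x e he hx => ?_
  have hp : e ≤ isPt (fN B f) x (ck B ℕ) :=
    F.all_elim (R := A) (φ := fun y => isPt (fN B f) y (ck B ℕ))
      ((he.trans hd).trans (h.trans inf_le_left)) hx
  have hm : e ≤ meets x Φ (ck B ℕ) :=
    F.all_elim (R := A) (φ := fun y => meets y Φ (ck B ℕ)) (he.trans (h1.trans inf_le_right)) hx
  refine le_mem_br f hf hp ?_
  refine (le_inf he (meets_le f hp hm)).trans (hit_congr (fun n k => inf_le_right)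
    (fun n k => le_rfl))

theorem hit_split {x φ σ τ : ℕ → ℕ → B} {c : B} (h : c ≤ hit x φ) (h' : c ≤ ale φ (jn σ τ)) :
    c ≤ hit x σ ⊔ hit x τ := by
  have key : ∀ (ψ : ℕ → ℕ → B) (d b : B), d ≤ (hit x ψ)ᶜ →
      (∀ (m : ℕ) (e : B), e ≤ d → (∀ n, m ≤ n → ∀ k, e ⊓ x n k ⊓ ψ n k ≤ ⊥) → e ≤ b) → d ≤ b := by
    intro ψ d b hd hb
    unfold hit at hd
    rw [compl_iInf] at hd
    refine F.cases hd fun m e he h1 => hb m e he fun n hmn k => ?_
    refine F.absurd (a := ⨆ n : ℕ, ⨆ (_ : m ≤ n), ⨆ k : ℕ, x n k ⊓ ψ n k) ?_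
      (inf_le_left.trans (inf_le_left.trans h1))
    exact le_iSup_of_le n (le_iSup_of_le hmn (le_iSup_of_le k
      (le_inf (inf_le_left.trans inf_le_right) inf_le_right)))
  refine F.em (hit x σ) (fun d hd h1 => le_sup_of_le_left h1) (fun d hd h1 => ?_)
  refine le_sup_of_le_right (F.byContra fun d1 hd1 h2 => ?_)
  refine key σ d1 ⊥ (hd1.trans h1) fun m1 e1 he1 h3 => key τ e1 ⊥ (he1.trans h2) fun m2 e2 he2 h4 => ?_
  have hc : e2 ≤ c := (he2.trans (he1.trans hd1)).trans hd
  unfold ale at h'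
  refine F.cases (hc.trans h') fun m3 e3 he3 h5 => ?_
  unfold hit at h
  refine F.cases ((he3.trans hc).trans (h.trans (iInf_le _ (max m1 (max m2 m3)))))
    fun n e4 he4 h6 => F.cases h6 fun hn e5 he5 h7 => F.cases h7 fun k e6 he6 h8 => ?_
  have hm1 : m1 ≤ n := (le_max_left _ _).trans hn
  have hm2 : m2 ≤ n := ((le_max_left _ _).trans (le_max_right _ _)).trans hn
  have hm3 : m3 ≤ n := ((le_max_right _ _).trans (le_max_right _ _)).trans hn
  have he63 : e6 ≤ e3 := he6.trans (he5.trans he4)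
  have h9 : e6 ≤ jn σ τ n k :=
    F.mp (((he63.trans h5).trans (iInf₂_le n hm3)).trans (iInf_le _ k)) (h8.trans inf_le_right)
  have hx := h8.trans inf_le_left
  refine F.or_cases h9 (fun e he h10 => ?_) (fun e he h10 => ?_)
  · exact (le_inf (le_inf (he.trans (he63.trans (he3.trans he2))) (he.trans hx)) h10).trans
      (h3 n hm1 k)
  · exact (le_inf (le_inf (he.trans (he63.trans he3)) (he.trans hx)) h10).trans (h4 n hm2 k)

section subideal

variable {J : BSet B} {c : B}

theorem subideal_sub (h : c ≤ isSubideal (fN B f) J (ck B ℕ)) {A C : BSet B}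
    (hA : c ≤ mem A J) (hC : c ≤ sub C A) : c ≤ mem C J := by
  have h1 := F.all_elim (F.all_elim (h.trans inf_le_right) hA) hA
  refine F.mp (h1.trans (iInf_le _ C)) ?_
  exact F.all_intro fun x d hd hx => le_sup_of_le_left (F.mem_sub (hd.trans hC) hx)

theorem subideal_join (hf : ∀ n, 0 < f n) (h : c ≤ isSubideal (fN B f) J (ck B ℕ))
    {φ σ τ : ℕ → ℕ → B} (hσ : c ≤ mem (br f σ) J) (hτ : c ≤ mem (br f τ) J)
    (ha : c ≤ ale φ (jn σ τ)) : c ≤ mem (br f φ) J := by
  have h1 := F.all_elim (F.all_elim (h.trans inf_le_right) hσ) hτ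
  refine F.mp (h1.trans (iInf_le _ (br f φ))) ?_
  refine F.all_intro fun x d hd hx => ?_
  have h2 := mem_br_le f hx
  refine F.or_cases (hit_split (h2.trans inf_le_right) (hd.trans ha)) (fun e he h3 => ?_)
    (fun e he h3 => ?_)
  · exact le_sup_of_le_left (le_mem_br f hf (he.trans (h2.trans inf_le_left)) h3)
  · exact le_sup_of_le_right (le_mem_br f hf (he.trans (h2.trans inf_le_left)) h3)

end subideal

/-! ### `[τ] ⊆ [ψ]` implies `τ ⊆* ψ` -/

/-- `k` is the least element of `q`. -/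
def lea (q : ℕ → B) (k : ℕ) : B := q k ⊓ ⨅ j, ⨅ (_ : j < k), (q j)ᶜ

theorem lea_le (q : ℕ → B) (k : ℕ) : lea q k ≤ q k := inf_le_left

theorem iSup_lea (q : ℕ → B) : ⨆ k, lea q k = ⨆ k, q k := iSup_least q

theorem lea_disj (q : ℕ → B) {k l : ℕ} (h : k ≠ l) : lea q k ⊓ lea q l ≤ ⊥ := by
  have key : ∀ a b : ℕ, a < b → lea q a ⊓ lea q b ≤ ⊥ := by
    intro a b hab
    exact F.absurd (inf_le_left.trans (lea_le q a)) (inf_le_right.trans (inf_le_right.trans
      (iInf₂_le a hab)))
  rcases lt_or_gt_of_ne h with h | h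
  · exact key _ _ h
  · rw [inf_comm]
    exact key _ _ h

/-- The elements of `τ(n) \ ψ(n)`. -/
def qa (τ ψ : ℕ → ℕ → B) (n a : ℕ) : B := τ n a ⊓ (ψ n a)ᶜ

/-- The elements of `f(n) \ ψ(n)`. -/
def qb (ψ : ℕ → ℕ → B) (n a : ℕ) : B := if a < f n then (ψ n a)ᶜ else ⊥

/-- A point in `[τ] \ [ψ]`. -/
def dpt (τ ψ : ℕ → ℕ → B) (n k : ℕ) : B :=
  lea (qa τ ψ n) k ⊔ ((⨆ a, qa τ ψ n a)ᶜ ⊓ (lea (qb f ψ n) k ⊔
    ((⨆ a, qb f ψ n a)ᶜ ⊓ if k = 0 then ⊤ else ⊥)))

theorem PtD_dpt (hf : ∀ n, 0 < f n) {τ : ℕ → ℕ → B} (hτ : NS f τ) (ψ : ℕ → ℕ → B) :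
    PtD f (dpt f τ ψ) where
  sup n a ha := by
    rw [← le_bot_iff]
    refine F.or_cases (le_refl (dpt f τ ψ n a)) (fun d hd h1 => ?_) (fun d hd h1 => ?_)
    · have h2 := (h1.trans (lea_le _ _)).trans inf_le_left
      rw [hτ.sup n a ha] at h2
      exact h2
    · refine F.or_cases (h1.trans inf_le_right) (fun e he h2 => ?_) (fun e he h2 => ?_)
      · have h3 := h2.trans (lea_le _ _)
        unfold qb at h3
        rw [if_neg (not_lt.2 ha)] at h3
        exact h3
      · have h3 := h2.trans inf_le_right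
        have ha0 : a ≠ 0 := by
          rintro rfl
          exact absurd (hf n) (not_lt.2 ha)
        rw [if_neg ha0] at h3
        exact h3
  tot n := by
    rw [← top_le_iff]
    refine F.em (⨆ a, qa τ ψ n a) (fun d _ hd => ?_) (fun d _ hd => ?_)
    · rw [← iSup_lea] at hd
      exact hd.trans (iSup_mono fun k => le_sup_left)
    · refine F.em (⨆ a, qb f ψ n a) (fun e he h1 => ?_) (fun e he h1 => ?_)
      · rw [← iSup_lea] at h1
        refine F.cases h1 fun k e1 he1 h2 => le_iSup_of_le k ?_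
        exact le_sup_of_le_right (le_inf (he1.trans (he.trans hd)) (le_sup_of_le_left h2))
      · refine le_iSup_of_le 0 (le_sup_of_le_right (le_inf (he.trans hd)
          (le_sup_of_le_right (le_inf h1 ?_))))
        simp
  func n a b hab := by
    rw [← le_bot_iff]
    have h0 : ∀ (q : ℕ → B) (d : B) (k : ℕ), d ≤ (⨆ a, q a)ᶜ → d ≤ lea q k → d ≤ ⊥ :=
      fun q d k h1 h2 => F.absurd ((h2.trans (lea_le q k)).trans (le_iSup q k)) h1
    refine F.or_cases (inf_le_left : _ ≤ dpt f τ ψ n a) (fun d hd h1 => ?_) (fun d hd h1 => ?_)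
    · refine F.or_cases (hd.trans inf_le_right) (fun e he h2 => ?_) (fun e he h2 => ?_)
      · exact (le_inf (he.trans h1) h2).trans (lea_disj _ hab)
      · exact h0 _ e a (h2.trans inf_le_left) (he.trans h1)
    · refine F.or_cases (hd.trans inf_le_right) (fun e he h2 => ?_) (fun e he h2 => ?_)
      · exact h0 _ e b ((he.trans h1).trans inf_le_left) h2
      · refine F.or_cases ((he.trans h1).trans inf_le_right) (fun u hu h3 => ?_)
          (fun u hu h3 => ?_)
        · refine F.or_cases (hu.trans (h2.trans inf_le_right)) (fun v hv h4 => ?_)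
            (fun v hv h4 => ?_)
          · exact (le_inf (hv.trans h3) h4).trans (lea_disj _ hab)
          · exact h0 _ v a (h4.trans inf_le_left) (hv.trans h3)
        · refine F.or_cases (hu.trans (h2.trans inf_le_right)) (fun v hv h4 => ?_)
            (fun v hv h4 => ?_)
          · exact h0 _ v b ((hv.trans h3).trans inf_le_left) h4
          · by_cases ha : a = 0
            · have hb : b ≠ 0 := fun hb => hab (ha.trans hb.symm)
              have h5 := h4.trans inf_le_right
              rw [if_neg hb] at h5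
              exact h5
            · have h5 := (hv.trans h3).trans inf_le_right
              rw [if_neg ha] at h5
              exact h5

theorem ale_of_sub (hf : ∀ n, 0 < f n) {τ ψ : ℕ → ℕ → B} (hτ : NS f τ) (hψ : NS f ψ) {c : B}
    (h : c ≤ sub (br f τ) (br f ψ)) : c ≤ ale τ ψ := by
  refine F.byContra fun d hd h1 => ?_
  unfold ale at h1
  rw [compl_iSup] at h1
  -- the point is in `[τ]`
  have hpt := PtD_dpt f hf hτ ψ
  have hrd : rd (slN (dpt f τ ψ)) = dpt f τ ψ := by
    funext n k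
    exact rd_slN _ n k
  have h2 : d ≤ hit (dpt f τ ψ) τ := by
    unfold hit
    refine le_iInf fun m => ?_
    have h3 := h1.trans (iInf_le _ m)
    rw [compl_iInf] at h3
    refine F.cases h3 fun n e he h4 => ?_
    rw [compl_iInf] at h4
    refine F.cases h4 fun hmn e1 he1 h5 => ?_
    rw [compl_iInf] at h5
    refine F.cases h5 fun a e2 he2 h6 => ?_
    have h7 : e2 ≤ ⨆ a, qa τ ψ n a := by
      refine le_iSup_of_le a ?_
      rw [himp_eq, compl_sup, compl_compl] at h6
      exact le_inf (h6.trans inf_le_right) (h6.trans inf_le_left)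
    rw [← iSup_lea] at h7
    refine F.cases h7 fun k e3 he3 h8 => ?_
    exact le_iSup_of_le n (le_iSup_of_le hmn (le_iSup_of_le k (le_inf (le_sup_of_le_left h8)
      ((h8.trans (lea_le _ _)).trans inf_le_left))))
  have h3 : d ≤ mem (slN (dpt f τ ψ)) (br f τ) :=
    le_mem_br f hf (F.top (isPt_slN f hpt)) (by rw [hrd]; exact h2)
  have h4 : d ≤ hit (dpt f τ ψ) ψ := by
    have h5 := (mem_br_le f (F.mem_sub (hd.trans h) h3)).trans inf_le_right
    rw [hrd] at h5
    exact h5
  -- it is not in `[ψ]`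
  have h5 : d ≤ ⨆ m : ℕ, ⨅ n : ℕ, ⨅ (_ : m ≤ n), cap f 2 n (ψ n) := by
    refine le_top.trans ?_
    rw [← hψ.nul]
    exact iInf_le _ 2
  refine F.cases h5 fun m e he h6 => ?_
  unfold hit at h4
  refine F.cases ((he.trans h4).trans (iInf_le _ m)) fun n e1 he1 h7 => F.cases h7 fun hmn e2 he2 h8 =>
    F.cases h8 fun k e3 he3 h9 => ?_
  have hψk := h9.trans inf_le_right
  refine F.or_cases (h9.trans inf_le_left) (fun u hu h10 => ?_) (fun u hu h10 => ?_)
  · exact F.absurd (hu.trans hψk) ((h10.trans (lea_le _ _)).trans inf_le_right)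
  · refine F.or_cases (h10.trans inf_le_right) (fun v hv h11 => ?_) (fun v hv h11 => ?_)
    · have h12 := h11.trans (lea_le _ _)
      unfold qb at h12
      by_cases hk : k < f n
      · rw [if_pos hk] at h12
        exact F.absurd (hv.trans (hu.trans hψk)) h12
      · rw [if_neg hk] at h12
        exact h12
    · have h12 : v ≤ cap f 2 n (ψ n) := by
        refine (((((hv.trans hu).trans he3).trans he2).trans he1).trans h6).trans ?_
        exact iInf₂_le n hmn
      have h13 : v ≤ (⨅ a ∈ Finset.range (f n), ψ n a)ᶜ := by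
        refine h12.trans ?_
        unfold cap
        refine iInf₂_le (Finset.range (f n)) ⟨subset_rfl, ?_⟩
        rw [Finset.card_range]
        have := hf n
        omega
      refine F.absurd (le_iInf fun a => le_iInf fun ha => ?_) h13
      have h14 := h11.trans inf_le_left
      rw [compl_iSup] at h14
      have h15 := h14.trans (iInf_le _ a)
      unfold qb at h15
      rw [if_pos (Finset.mem_range.1 ha), compl_compl] at h15
      exact h15

end Pool.Agent.LibNC21
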