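import Mathlib

/-!
The ideal `I_f`, `add` and `cofin⁻`, and the implication between the sentence which is true in the
Boolean-valued universe and the question.
-/

set_option autoImplicit false

namespace Pool.Agent.LibNC21

open Filter Topology Cardinal

/-- `φ` is a null slalom below `f`: `φ(n)` is a subset of `f(n)` and `|φ(n)| / f(n)` tends to
`0`. -/
def IsNullSlalom (f : ℕ → ℕ) (φ : ∀ n, Finset (Fin (f n))) : Prop :=
  Tendsto (fun n => ((φ n).card : ℝ) / f n) atTop (𝓝 0)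

/-- `[φ]`: the set of the `x` in the product of the `f(n)` with `x(n) ∈ φ(n)` for infinitely many
`n`. -/
def bracket {f : ℕ → ℕ} (φ : ∀ n, Finset (Fin (f n))) : Set (∀ n, Fin (f n)) :=
  {x | ∃ᶠ n in atTop, x n ∈ φ n}

/-- The ideal `I_f`. -/
def slalomIdeal (f : ℕ → ℕ) : Set (Set (∀ n, Fin (f n))) :=
  {A | ∃ φ, IsNullSlalom f φ ∧ A ⊆ bracket φ}

/-- `J` is an ideal on `X`: it is closed under finite unions and under taking subsets. -/
structure IsIdeal {X : Type} (J : Set (Set X)) : Prop where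
  empty : ∅ ∈ J
  union : ∀ A ∈ J, ∀ C ∈ J, A ∪ C ∈ J
  subset : ∀ A ∈ J, ∀ C, C ⊆ A → C ∈ J

/-- `add(I)`: the least cardinality of a family of members of `I` whose union is not in `I`. -/
noncomputable def additivity {X : Type} (I : Set (Set X)) : Cardinal.{0} :=
  sInf {κ | ∃ 𝒜 : Set (Set X), 𝒜 ⊆ I ∧ #𝒜 = κ ∧ ⋃₀ 𝒜 ∉ I}

/-- The ideals `J β`, `β < γ`, are strictly increasing and their union is `I`. -/
structure IsChain {X : Type} (I : Set (Set X)) (γ : Ordinal.{0})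
    (J : Ordinal.{0} → Set (Set X)) : Prop where
  ideal : ∀ β < γ, IsIdeal (J β)
  strict : ∀ β β', β < β' → β' < γ → J β ⊂ J β'
  union : I = {A | ∃ β < γ, A ∈ J β}

/-- The formula of the question: `add(I_f) = ℵ_α < ℵ_(α+ω) ≤ cofin⁻(I_f)` for some ordinal `α`;
`cofin⁻(I_f)` is the least limit ordinal `γ` such that there is a strictly increasing sequence of
ideals, of length `γ`, with union `I_f`. -/
def LargeGap (f : ℕ → ℕ) : Prop :=
  ∃ α : Ordinal.{0}, additivity (slalomIdeal f) = ℵ_ α ∧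
    ∀ γ : Ordinal.{0}, Order.IsSuccLimit γ → (∃ J, IsChain (slalomIdeal f) γ J) →
      (ℵ_ (α + Ordinal.omega0)).ord ≤ γ

/-- There is a sequence `F 0, F 1, ...` of sets of increasing cardinalities such that
`add(I_f) ≤ |F 0|` and, for each `n`, `I_f` is not the union of a family, indexed by `F n`, of
ideals which are properly contained in `I_f`. -/
def HasGap (f : ℕ → ℕ) : Prop :=
  ∃ F : ℕ → Type, (∀ m n, m < n → #(F m) < #(F n)) ∧
    (∃ G : F 0 → Set (∀ n, Fin (f n)), (∀ t, G t ∈ slalomIdeal f) ∧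
      ∀ C ∈ slalomIdeal f, ∃ t, ¬ G t ⊆ C) ∧
    ∀ (n : ℕ) (J : F n → Set (Set (∀ n, Fin (f n)))),
      (∀ t, (∀ A ∈ J t, A ∈ slalomIdeal f) ∧
        (∀ A ∈ J t, ∀ A' ∈ J t, ∀ C, C ⊆ A ∪ A' → C ∈ J t) ∧ ∃ A ∈ slalomIdeal f, A ∉ J t) →
      ∃ A ∈ slalomIdeal f, ∀ t, A ∉ J t

theorem slalomIdeal_empty (f : ℕ → ℕ) : ∅ ∈ slalomIdeal f := by
  refine ⟨fun n => ∅, ?_, Set.empty_subset _⟩
  unfold IsNullSlalom
  simp

theorem slalomIdeal_union (f : ℕ → ℕ) {A C : Set (∀ n, Fin (f n))} (hA : A ∈ slalomIdeal f)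
    (hC : C ∈ slalomIdeal f) : A ∪ C ∈ slalomIdeal f := by
  obtain ⟨φ, hφ, hAφ⟩ := hA
  obtain ⟨ψ, hψ, hCψ⟩ := hC
  refine ⟨fun n => φ n ∪ ψ n, ?_, ?_⟩
  · unfold IsNullSlalom at *
    have h1 := hφ.add hψ
    rw [add_zero] at h1
    refine squeeze_zero (fun n => by positivity) (fun n => ?_) h1
    rw [← add_div]
    refine div_le_div_of_nonneg_right ?_ (Nat.cast_nonneg _)
    exact_mod_cast Finset.card_union_le _ _
  · rintro x (hx | hx)
    · refine (hAφ hx : ∃ᶠ n in atTop, x n ∈ φ n).mono fun n hn => ?_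
      exact Finset.mem_union_left _ hn
    · refine (hCψ hx : ∃ᶠ n in atTop, x n ∈ ψ n).mono fun n hn => ?_
      exact Finset.mem_union_right _ hn

theorem slalomIdeal_finite (f : ℕ → ℕ) {𝒜 : Set (Set (∀ n, Fin (f n)))} (hfin : 𝒜.Finite)
    (h : 𝒜 ⊆ slalomIdeal f) : ⋃₀ 𝒜 ∈ slalomIdeal f := by
  induction 𝒜, hfin using Set.Finite.induction_on with
  | empty =>
    rw [Set.sUnion_empty]
    exact slalomIdeal_empty f
  | @insert a s ha hs ih =>
    rw [Set.sUnion_insert]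
    exact slalomIdeal_union f (h (Set.mem_insert _ _))
      (ih (fun x hx => h (Set.mem_insert_of_mem _ hx)))

theorem largeGap_of_hasGap {f : ℕ → ℕ} (h : HasGap f) : LargeGap f := by
  obtain ⟨F, hF, ⟨G, hG, hG'⟩, hJ⟩ := h
  have hmem : #(Set.range G) ∈ {κ | ∃ 𝒜 : Set (Set (∀ n, Fin (f n))), 𝒜 ⊆ slalomIdeal f ∧
      #𝒜 = κ ∧ ⋃₀ 𝒜 ∉ slalomIdeal f} := by
    refine ⟨Set.range G, ?_, rfl, fun hU => ?_⟩
    · rintro _ ⟨t, rfl⟩
      exact hG t
    · obtain ⟨t, ht⟩ := hG' _ hU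
      exact ht (Set.subset_sUnion_of_mem ⟨t, rfl⟩)
  have hadd0 : additivity (slalomIdeal f) ≤ #(F 0) :=
    (csInf_le' hmem).trans Cardinal.mk_range_le
  have hinf : ℵ₀ ≤ additivity (slalomIdeal f) := by
    refine le_csInf ⟨_, hmem⟩ ?_
    rintro κ ⟨𝒜, h1, rfl, h3⟩
    by_contra h4
    rw [not_le, Cardinal.lt_aleph0_iff_set_finite] at h4
    exact h3 (slalomIdeal_finite f h4 h1)
  obtain ⟨α, hα⟩ : ∃ α : Ordinal.{0}, additivity (slalomIdeal f) = ℵ_ α := by
    obtain ⟨α, hα⟩ := (Cardinal.mem_range_aleph_iff).2 hinf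
    exact ⟨α, hα.symm⟩
  refine ⟨α, hα, ?_⟩
  have hFn : ∀ n : ℕ, ℵ_ (α + n) ≤ #(F n) := by
    intro n
    induction n with
    | zero =>
      rw [Nat.cast_zero, add_zero, ← hα]
      exact hadd0
    | succ n ih =>
      rw [Nat.cast_succ, ← add_assoc, ← Cardinal.succ_aleph,
        Order.succ_le_iff]
      exact ih.trans_lt (hF n (n + 1) (Nat.lt_succ_self n))
  rintro γ hγ ⟨J, hJc⟩
  by_contra hlt
  rw [not_le, Cardinal.lt_ord] at hlt
  obtain ⟨n, hn⟩ : ∃ n : ℕ, γ.card ≤ ℵ_ (α + n) := by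
    by_contra hc
    simp only [not_exists, not_le] at hc
    have h1 : ℵ_ (α + Ordinal.omega0) ≤ γ.card := by
      have hlim : Order.IsSuccLimit (α + Ordinal.omega0) :=
        Ordinal.isSuccLimit_add _ Ordinal.isSuccLimit_omega0
      rw [Cardinal.aleph_limit hlim]
      refine ciSup_le' fun a => ?_
      obtain ⟨k, hk⟩ : ∃ k : ℕ, a.1 ≤ α + k := by
        have h2 : a.1 < α + Ordinal.omega0 := a.2
        rw [Ordinal.lt_add_iff_of_isSuccLimit Ordinal.isSuccLimit_omega0] at h2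
        obtain ⟨d, hd, h3⟩ := h2
        obtain ⟨k, rfl⟩ := Ordinal.lt_omega0.1 hd
        exact ⟨k, h3.le⟩
      exact (Cardinal.aleph_le_aleph.2 hk).trans (hc k).le
    exact absurd (hlt.trans_le h1) (lt_irrefl _)
  have hcard : #(γ.ToType) ≤ #(F n) := by
    rw [Cardinal.mk_toType]
    exact hn.trans (hFn n)
  have hne : Nonempty γ.ToType := by
    rw [Ordinal.nonempty_toType_iff]
    exact hγ.bot_lt.ne'
  obtain ⟨e⟩ := Cardinal.le_def _ _ |>.1 hcard
  obtain ⟨s, hs⟩ : ∃ s : F n → γ.ToType, Function.Surjective s :=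
    ⟨Function.invFun e, Function.invFun_surjective e.injective⟩
  let o : F n → Ordinal.{0} := fun t => Ordinal.typein (α := γ.ToType) (· < ·) (s t)
  have ho : ∀ t, o t < γ := fun t => Ordinal.typein_lt_self _
  have hos : ∀ β < γ, ∃ t, o t = β := by
    intro β hβ
    obtain ⟨t, ht⟩ := hs (Ordinal.enum (α := γ.ToType) (· < ·) ⟨β, by simpa using hβ⟩)
    refine ⟨t, ?_⟩
    simp only [o, ht]
    exact Ordinal.typein_enum _ _
  obtain ⟨A, hA, hA'⟩ := hJ n (fun t => J (o t)) (fun t => by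
    have hid := hJc.ideal _ (ho t)
    have hsub : ∀ β < γ, ∀ A ∈ J β, A ∈ slalomIdeal f := by
      intro β hβ A hA
      rw [hJc.union]
      exact ⟨β, hβ, hA⟩
    refine ⟨hsub _ (ho t), fun A hA A' hA' C hC => ?_, ?_⟩
    · exact hid.subset _ (hid.union A hA A' hA') C hC
    · have h1 : Order.succ (o t) < γ := hγ.succ_lt (ho t)
      have h2 := hJc.strict _ _ (Order.lt_succ (o t)) h1
      obtain ⟨A, hA, hA'⟩ := Set.exists_of_ssubset h2
      exact ⟨A, hsub _ h1 A hA, hA'⟩)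
  rw [hJc.union] at hA
  obtain ⟨β, hβ, hA⟩ := hA
  obtain ⟨t, rfl⟩ := hos β hβ
  exact hA' t hA

end Pool.Agent.LibNC21
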