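import Pool.Agent.LibNC21.Small
import Pool.Agent.LibMA42.Defs

/-!
The formula `isNull`: names of null slaloms.
-/

set_option autoImplicit false

namespace Pool.Agent.LibNC21

open Pool.Agent.LibPlas90 Pool.Agent.LibPlas90.BSet Pool.Agent.LibTk83 Pool.Agent.LibMA42

variable {B : Type} [CompleteBooleanAlgebra B] (f : ℕ → ℕ)

theorem sm_le_cap (K n : ℕ) (x : ℕ → B) : sm (f n) K x ≤ cap f K n x := by
  unfold cap
  refine le_iInf fun A => le_iInf fun hA => F.not_intro fun d hd h1 => ?_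
  unfold sm at hd
  refine F.cases hd fun G d1 hd1 h2 => F.cases h2 fun hG d2 hd2 h3 => ?_
  have h4 : ¬ A ⊆ G := by
    intro h
    have := Finset.card_le_card h
    have h5 := Nat.mul_le_mul_left K this
    exact absurd (h5.trans hG.2) (not_le.2 hA.2)
  obtain ⟨a, ha, haG⟩ := Finset.not_subset.1 h4
  exact F.absurd ((hd2.trans hd1).trans (h1.trans (iInf₂_le a ha))) (h3.trans (iInf₂_le a haG))

theorem cap_le_sm {K n : ℕ} {x : ℕ → B} {c : B} (h0 : ∀ k, ¬ k < f n → c ⊓ x k = ⊥)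
    (h : c ≤ cap f K n x) : c ≤ sm (f n) K x := by
  classical
  have hsplit := Pool.Agent.LibSAD21.exists_split (Finset.range (f n)) x c
    (fun k hk => h0 k (by simpa using hk))
  refine F.cases hsplit fun G c2 hc2 hG => ?_
  by_cases hGs : ∀ k ∈ G, k < f n
  · by_cases hcard : K * G.card ≤ f n
    · unfold sm
      exact le_iSup_of_le G (le_iSup_of_le ⟨hGs, hcard⟩ (hG.trans inf_le_right))
    · have h1 : c2 ≤ (⨅ a ∈ G, x a)ᶜ := by
        refine (hc2.trans h).trans ?_
        unfold cap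
        exact iInf₂_le G ⟨fun k hk => Finset.mem_range.2 (hGs k hk), not_le.1 hcard⟩
      exact F.absurd (hG.trans inf_le_left) h1
  · push Not at hGs
    obtain ⟨k, hk, hkf⟩ := hGs
    have h1 : c2 ≤ c ⊓ x k := le_inf hc2 ((hG.trans inf_le_left).trans (iInf₂_le k hk))
    rw [h0 k (not_lt.2 hkf)] at h1
    exact h1.trans bot_le

theorem compl_mem_chk {n m : ℕ} (h : m ≤ n) : (mem (chk n : BSet B) (chk m))ᶜ = ⊤ := by
  rw [mem_chk_chk_of_not (not_lt.2 h), compl_bot]

theorem not_compl_mem_chk {n m : ℕ} (h : n < m) : (mem (chk n : BSet B) (chk m))ᶜ = ⊥ := by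
  rw [mem_chk_of_lt h, compl_top]

/-- The real given by the name `Φ`. -/
noncomputable def rd (Φ : BSet B) (n k : ℕ) : B := rel Φ (chk n) (chk k)

theorem isNull_mem {Φ : BSet B} {c : B} (h : c ≤ isNull (fN B f) Φ (ck B ℕ)) (n : ℕ)
    (k : BSet B) : c ≤ rel Φ (chk n) k ⇨ below (fN B f) (chk n) k :=
  (F.all_elim (h.trans inf_le_left) (F.mem_chk_ck n)).trans (iInf_le _ k)

theorem isNull_sup {Φ : BSet B} {c : B} (h : c ≤ isNull (fN B f) Φ (ck B ℕ)) {n k : ℕ}
    (hk : ¬ k < f n) : c ⊓ rd Φ n k = ⊥ := by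
  rw [← le_bot_iff, ← below_chk_of_not f hk]
  exact F.mp (inf_le_left.trans (isNull_mem f h n (chk k))) inf_le_right

theorem isNull_cap {Φ : BSet B} {c : B} (h : c ≤ isNull (fN B f) Φ (ck B ℕ)) (K : ℕ) :
    c ≤ ⨆ m : ℕ, ⨅ n : ℕ, ⨅ (_ : m ≤ n), cap f K n (rd Φ n) := by
  have h1 := F.all_elim (h.trans inf_le_right) (F.mem_chk_ck K)
  refine F.ex_cases h1 fun x d hd hx h2 => ?_
  refine F.ck_cases hx fun m d1 hd1 hm => ?_
  have h3 : d1 ≤ all (ck B ℕ) fun n => (mem n (chk m))ᶜ ⇨ small (fN B f) Φ (chk K) n :=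
    F.ext (φ := fun m => all (ck B ℕ) fun n => (mem n m)ᶜ ⇨ small (fN B f) Φ (chk K) n)
      (Ext.all fun n => Ext.himp (Ext.compl (Ext.mem_right n)) (Ext.const _)) hm (hd1.trans h2)
  refine le_iSup_of_le m (le_iInf fun n => le_iInf fun hn => ?_)
  have h4 := F.mp (F.all_elim h3 (F.mem_chk_ck n)) (F.top (compl_mem_chk hn))
  exact (small_le f (fun k => isNull_mem f ((hd1.trans hd).trans h) n k) h4).trans
    (sm_le_cap f K n _)

/-- The real given by `Φ` is a null slalom, if it is cut off. -/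
theorem NS_cut {Φ : BSet B} {c : B} (h : c ≤ isNull (fN B f) Φ (ck B ℕ)) :
    NS f (fun n k => c ⊓ rd Φ n k) where
  sup n a ha := isNull_sup f h (not_lt.2 ha)
  nul := by
    rw [← top_le_iff]
    unfold nul
    refine le_iInf fun K => ?_
    refine F.em c (fun d _ hd => ?_) (fun d _ hd => ?_)
    · refine (hd.trans (isNull_cap f h K)).trans (iSup_mono fun m => iInf_mono fun n =>
        iInf_mono fun _ => ?_)
      unfold cap
      refine iInf_mono fun A => iInf_mono fun _ => compl_le_compl ?_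
      exact iInf_mono fun a => iInf_mono fun _ => inf_le_right
    · refine le_iSup_of_le 0 (le_iInf fun n => le_iInf fun _ => ?_)
      unfold cap
      refine le_iInf fun A => le_iInf fun hA => hd.trans (compl_le_compl ?_)
      have hne : A.Nonempty := by
        rw [Finset.nonempty_iff_ne_empty]
        rintro rfl
        simp at hA
      obtain ⟨a, ha⟩ := hne
      exact (iInf₂_le a ha).trans inf_le_left

/-- The name of a slalom. -/
noncomputable def slN (φ : ℕ → ℕ → B) : BSet B := relN chk chk φ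

theorem rd_slN (φ : ℕ → ℕ → B) (n k : ℕ) : rd (slN φ) n k = φ n k :=
  Pool.Agent.LibSAD21.rel_chk φ n k

theorem rel_slN {φ : ℕ → ℕ → B} {x y : BSet B} {c b : B} (h : c ≤ rel (slN φ) x y)
    (h' : ∀ (n k : ℕ) (d : B), d ≤ c → d ≤ φ n k → d ≤ eq x (chk n) → d ≤ eq y (chk k) → d ≤ b) :
    c ≤ b := by
  unfold slN at h
  rw [rel_relN] at h
  refine F.cases h fun n d hd h1 => F.cases h1 fun k d' hd' h2 => ?_
  exact h' n k d' (hd'.trans hd) (h2.trans inf_le_left) ((h2.trans inf_le_right).trans inf_le_left)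
    ((h2.trans inf_le_right).trans inf_le_right)

theorem isNull_slN {φ : ℕ → ℕ → B} (hφ : NS f φ) : isNull (fN B f) (slN φ) (ck B ℕ) = ⊤ := by
  rw [← top_le_iff]
  have h0 : ∀ (n : ℕ) (k : BSet B), (⊤ : B) ≤ rel (slN φ) (chk n) k ⇨ below (fN B f) (chk n) k := by
    intro n k
    refine F.intro fun d _ h1 => rel_slN h1 fun n' k' d' _ h2 h3 h4 => ?_
    by_cases hn : n = n'
    · subst hn
      by_cases hk : k' < f n
      · rw [below_fN]
        exact F.mem_l (F.symm h4) (F.mem_chk_of_lt hk)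
      · rw [hφ.sup n k' (not_lt.1 hk)] at h2
        exact h2.trans bot_le
    · exact F.eq_chk_elim h3 hn
  unfold isNull
  refine le_inf ?_ ?_
  · rw [all_ck (Ext.iInf fun k => Ext.himp (Ext.rel1 _ k) (Ext_below_2 _ k))]
    exact le_iInf fun n => le_iInf fun k => h0 n k
  · have hE1 : ∀ d m : BSet B, Ext (fun n => (mem n m)ᶜ ⇨ small (fN B f) (slN φ) d n) :=
      fun d m => Ext.himp (Ext.compl (Ext.mem_left m)) (Ext_small_4 _ _ d)
    have hE2 : ∀ d : BSet B, Ext (fun m => all (ck B ℕ) fun n =>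
        (mem n m)ᶜ ⇨ small (fN B f) (slN φ) d n) := fun d =>
      Ext.all fun n => Ext.himp (Ext.compl (Ext.mem_right n)) (Ext.const _)
    have hE3 : Ext (fun d => ex (ck B ℕ) fun m => all (ck B ℕ) fun n =>
        (mem n m)ᶜ ⇨ small (fN B f) (slN φ) d n) :=
      Ext.ex fun m => Ext.all (R := ck B ℕ)
        (φ := fun d n => (mem n m)ᶜ ⇨ small (fN B f) (slN φ) d n) fun n =>
          Ext.himp (Ext.const _) (Ext_small_3 _ _ n)
    rw [all_ck hE3]
    refine le_iInf fun K => ?_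
    rw [ex_ck (hE2 _)]
    have h1 : (⊤ : B) ≤ ⨆ m : ℕ, ⨅ n : ℕ, ⨅ (_ : m ≤ n), cap f K n (φ n) := by
      rw [← hφ.nul]
      exact iInf_le _ K
    refine h1.trans (iSup_mono fun m => ?_)
    rw [all_ck (hE1 _ _)]
    refine le_iInf fun n => F.intro fun d hd h2 => ?_
    by_cases hmn : m ≤ n
    · have h3 : d ≤ cap f K n (φ n) := hd.trans (iInf₂_le n hmn)
      refine le_small f (fun k => le_top.trans (h0 n k)) ?_
      have h4 : (fun k => rel (slN φ) (chk n) (chk k)) = φ n := funext fun k => rd_slN φ n k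
      rw [h4]
      exact cap_le_sm f (fun k hk => by rw [hφ.sup n k (not_lt.1 hk), inf_bot_eq]) h3
    · rw [not_compl_mem_chk (not_le.1 hmn)] at h2
      exact h2.trans bot_le

end Pool.Agent.LibNC21
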