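import Pool.Agent.LibNC21.Null

/-!
Names of points and of the sets `[φ]`.
-/

set_option autoImplicit false

namespace Pool.Agent.LibNC21

open Pool.Agent.LibPlas90 Pool.Agent.LibPlas90.BSet Pool.Agent.LibTk83 Pool.Agent.LibMA42

variable {B : Type} [CompleteBooleanAlgebra B] (f : ℕ → ℕ)

/-- A name of an element of the product of the `f(n)`. -/
structure PtD (x : ℕ → ℕ → B) : Prop where
  sup : ∀ n a, f n ≤ a → x n a = ⊥
  tot : ∀ n, ⨆ a, x n a = ⊤
  func : ∀ n a b, a ≠ b → x n a ⊓ x n b = ⊥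

/-- The truth value of: `x(n) ∈ φ(n)` for infinitely many `n`. -/
def hit (x φ : ℕ → ℕ → B) : B := ⨅ m : ℕ, ⨆ n : ℕ, ⨆ (_ : m ≤ n), ⨆ k : ℕ, x n k ⊓ φ n k

/-- The name of `[φ]`. -/
noncomputable def br (φ : ℕ → ℕ → B) : BSet B :=
  mk {x : ℕ → ℕ → B // PtD f x} (fun x => slN x.1) (fun x => hit x.1 φ)

theorem mem_slN (φ : ℕ → ℕ → B) (t : BSet B) :
    mem t (slN φ) = ⨆ n : ℕ, ⨆ k : ℕ, φ n k ⊓ eq t (opr (chk n) (chk k)) := by
  rw [slN, relN, mem_mk, iSup_prod]

theorem mem_slN_of {φ : ℕ → ℕ → B} {t : BSet B} {c : B} (n k : ℕ) (h : c ≤ φ n k)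
    (h' : c ≤ eq t (opr (chk n) (chk k))) : c ≤ mem t (slN φ) := by
  rw [mem_slN]
  exact le_iSup_of_le n (le_iSup_of_le k (le_inf h h'))

theorem mem_slN_cases {φ : ℕ → ℕ → B} {t : BSet B} {c b : B} (h : c ≤ mem t (slN φ))
    (h' : ∀ (n k : ℕ) (d : B), d ≤ c → d ≤ φ n k → d ≤ eq t (opr (chk n) (chk k)) → d ≤ b) :
    c ≤ b := by
  rw [mem_slN] at h
  exact F.cases h fun n d hd h1 => F.cases h1 fun k d' hd' h2 =>
    h' n k d' (hd'.trans hd) (h2.trans inf_le_left) (h2.trans inf_le_right)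

theorem eq_slN {φ ψ : ℕ → ℕ → B} {c : B} (h : ∀ n k, c ⊓ φ n k ≤ ψ n k)
    (h' : ∀ n k, c ⊓ ψ n k ≤ φ n k) : c ≤ eq (slN φ) (slN ψ) := by
  refine F.eq_intro (fun t d hd h1 => ?_) (fun t d hd h1 => ?_)
  · exact mem_slN_cases h1 fun n k d' hd' h2 h3 =>
      mem_slN_of n k ((le_inf (hd'.trans hd) h2).trans (h n k)) h3
  · exact mem_slN_cases h1 fun n k d' hd' h2 h3 =>
      mem_slN_of n k ((le_inf (hd'.trans hd) h2).trans (h' n k)) h3

theorem rd_le_of_eq {X Y : BSet B} {c : B} (h : c ≤ eq X Y) (n k : ℕ) :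
    c ⊓ rd X n k ≤ rd Y n k := F.rel0 (inf_le_left.trans h) inf_le_right

section point

variable {X : BSet B} {c : B}

/-- The value of a point at `n`. -/
theorem isPt_val (h : c ≤ isPt (fN B f) X (ck B ℕ)) (n : ℕ) {b : B}
    (h' : ∀ (k : ℕ) (d : B), k < f n → d ≤ c → d ≤ rd X n k →
      (∀ l : BSet B, d ≤ rel X (chk n) l ⇨ eq l (chk k)) → d ≤ b) : c ≤ b := by
  have h1 := F.all_elim (h.trans inf_le_right) (F.mem_chk_ck n)
  refine F.cases h1 fun k0 d hd h2 => ?_
  have h3 : d ≤ mem k0 (chk (f n)) := by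
    rw [← below_fN]
    exact (h2.trans inf_le_left).trans inf_le_right
  refine F.mem_chk_cases h3 fun k hk d' hd' h4 => ?_
  refine h' k d' hk (hd'.trans hd) ?_ ?_
  · exact F.rel2 h4 (hd'.trans ((h2.trans inf_le_left).trans inf_le_left))
  · intro l
    refine F.intro fun e he h5 => ?_
    exact F.trans (F.mp ((he.trans hd').trans ((h2.trans inf_le_right).trans (iInf_le _ l))) h5)
      (he.trans h4)

theorem isPt_func (h : c ≤ isPt (fN B f) X (ck B ℕ)) (n : ℕ) {k l : ℕ} (hkl : k ≠ l) :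
    c ⊓ rd X n k ⊓ rd X n l ≤ ⊥ := by
  refine isPt_val f ((inf_le_left.trans inf_le_left).trans h) n fun j d _ hd _ h2 => ?_
  have h3 := F.mp (h2 (chk k)) (hd.trans (inf_le_left.trans inf_le_right))
  have h4 := F.mp (h2 (chk l)) (hd.trans inf_le_right)
  exact F.eq_chk_elim (F.trans h3 (F.symm h4)) hkl

theorem isPt_sup (h : c ≤ isPt (fN B f) X (ck B ℕ)) {n k : ℕ} (hk : ¬ k < f n) :
    c ⊓ rd X n k ≤ ⊥ := by
  refine isPt_val f (inf_le_left.trans h) n fun j d hj hd _ h2 => ?_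
  exact F.eq_chk_elim (F.mp (h2 (chk k)) (hd.trans inf_le_right)) (fun he => hk (he ▸ hj))

theorem isPt_eq (h : c ≤ isPt (fN B f) X (ck B ℕ)) : c ≤ eq X (slN (rd X)) := by
  refine F.eq_intro (fun t d hd h1 => ?_) (fun t d hd h1 => ?_)
  · have h2 := F.all_elim ((hd.trans h).trans inf_le_left) h1
    refine F.ex_cases h2 fun n0 d1 hd1 hn0 h3 => ?_
    refine F.ck_cases hn0 fun n d2 hd2 hn => ?_
    refine F.cases (hd2.trans h3) fun k0 d3 hd3 h4 => ?_
    have hd3c : d3 ≤ d := hd3.trans (hd2.trans hd1)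
    rw [isPair_eq] at h4
    -- `t = (n, k0)`
    have h5 : d3 ≤ eq t (opr (chk n) k0) := by
      refine F.trans h4 ?_
      rw [eq_opr]
      exact le_inf (hd3.trans hn) (F.refl _)
    have h6 : d3 ≤ rel X (chk n) k0 := by
      rw [rel_eq]
      exact F.mem_l h5 (hd3c.trans h1)
    refine isPt_val f ((hd3c.trans hd).trans h) n fun k d4 _ hd4 h7 h8 => ?_
    have h9 : d4 ≤ eq k0 (chk k) := F.mp (h8 k0) (hd4.trans h6)
    refine mem_slN_of n k h7 (F.trans (hd4.trans h5) ?_)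
    rw [eq_opr]
    exact le_inf (F.refl _) h9
  · refine mem_slN_cases h1 fun n k d' _ h2 h3 => ?_
    refine F.mem_l (F.symm h3) ?_
    rw [← rel_eq]
    exact h2

theorem isPt_slN {x : ℕ → ℕ → B} (hx : PtD f x) : isPt (fN B f) (slN x) (ck B ℕ) = ⊤ := by
  rw [← top_le_iff]
  unfold isPt
  refine le_inf ?_ ?_
  · refine F.all_intro fun p d _ hp => mem_slN_cases hp fun n k d' _ _ h3 => ?_
    refine F.ex_intro (chk n) (F.mem_chk_ck n) (le_iSup_of_le (chk k) ?_)
    rw [isPair_eq]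
    exact h3
  · have hE : Ext (fun n => ⨆ k : BSet B, rel (slN x) n k ⊓ below (fN B f) n k ⊓
        ⨅ l : BSet B, rel (slN x) n l ⇨ eq l k) := Ext.iSup fun k =>
      Ext.inf (Ext.inf (Ext.rel1 _ k) (Ext_below_2 _ k))
        (Ext.iInf fun l => Ext.himp (Ext.rel1 _ l) (Ext.const _))
    rw [all_ck hE]
    refine le_iInf fun n => ?_
    rw [← hx.tot n]
    refine iSup_le fun k => ?_
    by_cases hk : k < f n
    · refine le_iSup_of_le (chk k) (le_inf (le_inf ?_ ?_) ?_)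
      · exact (rd_slN x n k).ge
      · exact F.top (below_chk_of_lt f hk)
      · refine le_iInf fun l => F.intro fun d hd h1 => rel_slN h1 fun n' k' d' hd' h2 h3 h4 => ?_
        by_cases hn : n = n'
        · subst hn
          by_cases hkk : k' = k
          · subst hkk
            exact h4
          · have h5 : d' ≤ x n k' ⊓ x n k := le_inf h2 (hd'.trans hd)
            rw [hx.func n k' k hkk] at h5
            exact h5.trans bot_le
        · exact F.eq_chk_elim h3 hn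
    · rw [hx.sup n k (not_lt.1 hk)]
      exact bot_le

/-- A name for the point `X`, correct below `c`. -/
noncomputable def fix (c : B) (x : ℕ → ℕ → B) (n k : ℕ) : B :=
  (c ⊓ x n k) ⊔ (cᶜ ⊓ if k = 0 then ⊤ else ⊥)

theorem PtD_fix (hf : ∀ n, 0 < f n) (h : c ≤ isPt (fN B f) X (ck B ℕ)) :
    PtD f (fix c (rd X)) where
  sup n a ha := by
    have h1 : c ⊓ rd X n a = ⊥ := le_bot_iff.1 (isPt_sup f h (not_lt.2 ha))
    have h2 : a ≠ 0 := by
      rintro rfl
      exact absurd (hf n) (not_lt.2 ha)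
    simp [fix, h1, h2]
  tot n := by
    rw [← top_le_iff]
    refine F.em c (fun d _ hd => ?_) (fun d _ hd => ?_)
    · refine isPt_val f (hd.trans h) n fun k d' _ hd' h1 _ => le_iSup_of_le k ?_
      exact le_sup_of_le_left (le_inf (hd'.trans hd) h1)
    · refine le_iSup_of_le 0 (le_sup_of_le_right ?_)
      simpa using hd
  func n a b hab := by
    rw [← le_bot_iff]
    refine F.or_cases (inf_le_left : _ ≤ fix c (rd X) n a) (fun d hd h1 => ?_) (fun d hd h1 => ?_)
    · refine F.or_cases (hd.trans inf_le_right) (fun e he h2 => ?_) (fun e he h2 => ?_)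
      · refine le_trans ?_ (isPt_func f h n hab)
        exact le_inf (le_inf ((he.trans h1).trans inf_le_left) ((he.trans h1).trans inf_le_right))
          (h2.trans inf_le_right)
      · exact F.absurd ((he.trans h1).trans inf_le_left) (h2.trans inf_le_left)
    · refine F.or_cases (hd.trans inf_le_right) (fun e he h2 => ?_) (fun e he h2 => ?_)
      · exact F.absurd (h2.trans inf_le_left) ((he.trans h1).trans inf_le_left)
      · by_cases ha : a = 0
        · have hb : b ≠ 0 := fun hb => hab (ha.trans hb.symm)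
          refine (h2.trans inf_le_right).trans ?_
          simp [hb]
        · refine ((he.trans h1).trans inf_le_right).trans ?_
          simp [ha]

theorem eq_fix (h : c ≤ isPt (fN B f) X (ck B ℕ)) : c ≤ eq X (slN (fix c (rd X))) := by
  refine F.trans (isPt_eq f h) (eq_slN (fun n k => ?_) (fun n k => ?_))
  · exact le_sup_of_le_left le_rfl
  · refine F.or_cases (inf_le_right : _ ≤ fix c (rd X) n k) (fun d hd h1 => h1.trans inf_le_right)
      (fun d hd h1 => ?_)
    exact F.absurd (hd.trans inf_le_left) (h1.trans inf_le_left)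

end point

theorem meets_le {X Φ : BSet B} {c : B} (h : c ≤ isPt (fN B f) X (ck B ℕ))
    (h' : c ≤ meets X Φ (ck B ℕ)) : c ≤ hit (rd X) (rd Φ) := by
  unfold hit
  refine le_iInf fun m => ?_
  have h1 := F.all_elim h' (F.mem_chk_ck m)
  refine F.ex_cases h1 fun n0 d hd hn0 h2 => F.ck_cases hn0 fun n d1 hd1 hn => ?_
  have h3 : d1 ≤ (mem (chk n) (chk m))ᶜ :=
    F.ext (Ext.compl (Ext.mem_left _)) hn (hd1.trans (h2.trans inf_le_left))
  by_cases hmn : m ≤ n
  · refine F.cases (hd1.trans (h2.trans inf_le_right)) fun k0 d2 hd2 h4 => ?_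
    have h5 : d2 ≤ rel X (chk n) k0 := F.rel1 (hd2.trans hn) (h4.trans inf_le_left)
    have h6 : d2 ≤ rel Φ (chk n) k0 := F.rel1 (hd2.trans hn) (h4.trans inf_le_right)
    refine isPt_val f ((hd2.trans (hd1.trans hd)).trans h) n fun k d3 _ hd3 h7 h8 => ?_
    refine le_iSup_of_le n (le_iSup_of_le hmn (le_iSup_of_le k (le_inf h7 ?_)))
    exact F.rel2 (F.mp (h8 k0) (hd3.trans h5)) (hd3.trans h6)
  · rw [not_compl_mem_chk (not_le.1 hmn)] at h3
    exact h3.trans bot_le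

theorem le_meets {X Φ : BSet B} {c : B} (h : c ≤ hit (rd X) (rd Φ)) :
    c ≤ meets X Φ (ck B ℕ) := by
  unfold meets
  have hE1 : ∀ m : BSet B, Ext (fun n => (mem n m)ᶜ ⊓ ⨆ k : BSet B, rel X n k ⊓ rel Φ n k) :=
    fun m => Ext.inf (Ext.compl (Ext.mem_left m))
      (Ext.iSup fun k => Ext.inf (Ext.rel1 X k) (Ext.rel1 Φ k))
  have hE2 : Ext (fun m => ex (ck B ℕ) fun n => (mem n m)ᶜ ⊓ ⨆ k : BSet B, rel X n k ⊓ rel Φ n k) :=
    Ext.ex fun n => Ext.inf (Ext.compl (Ext.mem_right n)) (Ext.const _)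
  rw [all_ck hE2]
  refine le_iInf fun m => ?_
  rw [ex_ck (hE1 _)]
  refine (h.trans (iInf_le _ m)).trans (iSup_mono fun n => iSup_le fun hmn => iSup_le fun k => ?_)
  exact le_inf (F.top (compl_mem_chk hmn)) (le_iSup_of_le (chk k) le_rfl)

theorem hit_congr {x y φ ψ : ℕ → ℕ → B} {c : B} (h : ∀ n k, c ⊓ x n k ≤ y n k)
    (h' : ∀ n k, c ⊓ φ n k ≤ ψ n k) : c ⊓ hit x φ ≤ hit y ψ := by
  unfold hit
  refine le_iInf fun m => ?_
  refine F.cases (inf_le_right.trans (iInf_le _ m)) fun n d hd h1 => F.cases h1 fun hmn d1 hd1 h2 =>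
    F.cases h2 fun k d2 hd2 h3 => ?_
  have hc : d2 ≤ c := (hd2.trans (hd1.trans hd)).trans inf_le_left
  exact le_iSup_of_le n (le_iSup_of_le hmn (le_iSup_of_le k (le_inf
    ((le_inf hc (h3.trans inf_le_left)).trans (h n k))
    ((le_inf hc (h3.trans inf_le_right)).trans (h' n k)))))

theorem mem_br_le {X : BSet B} {φ : ℕ → ℕ → B} {c : B} (h : c ≤ mem X (br f φ)) :
    c ≤ isPt (fN B f) X (ck B ℕ) ⊓ hit (rd X) φ := by
  rw [br, mem_mk] at h
  refine F.cases h fun x d hd h1 => ?_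
  have h2 := h1.trans inf_le_right
  refine le_inf ?_ ?_
  · exact F.ext (Ext_isPt_2 _ _) (F.symm h2) (F.top (isPt_slN f x.2))
  · refine le_trans (le_inf h2 (h1.trans inf_le_left)) (hit_congr (fun n k => ?_)
      (fun n k => inf_le_right))
    refine le_trans ?_ (rd_le_of_eq (c := eq X (slN x.1)) (F.symm le_rfl) n k)
    rw [rd_slN]

theorem le_mem_br (hf : ∀ n, 0 < f n) {X : BSet B} {φ : ℕ → ℕ → B} {c : B}
    (h : c ≤ isPt (fN B f) X (ck B ℕ)) (h' : c ≤ hit (rd X) φ) : c ≤ mem X (br f φ) := by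
  rw [br, mem_mk]
  refine le_iSup_of_le ⟨fix c (rd X), PtD_fix f hf h⟩ (le_inf ?_ (eq_fix f h))
  refine (le_inf le_rfl h').trans (hit_congr (fun n k => ?_) (fun n k => inf_le_right))
  exact le_sup_of_le_left le_rfl

end Pool.Agent.LibNC21
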