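import Pool.Agent.LibTk83.VDef

/-!
The truth value, in the Boolean-valued universe `V^B`, of the sentence: there is a sequence of
sets `F(0)`, `F(1)`, ... of increasing cardinalities such that `add(I_f) ≤ |F(0)|` and
`|F(n)| < cofin⁻(I_f)` for all `n`.

All quantifiers range over the whole universe `V^B`; the only primitive predicates are membership
and equality. The function `f` enters through its canonical name.
-/

set_option autoImplicit false

namespace Pool.Agent.LibNC21

open Pool.Agent.LibPlas90 Pool.Agent.LibPlas90.BSet Pool.Agent.LibTk83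

section

universe u

variable {B : Type u} [CompleteBooleanAlgebra B]

/-- `k` is an element of `f(n)`; for natural numbers: `k < f(n)`. -/
noncomputable def below (f n k : BSet B) : B := ⨆ v : BSet B, rel f n v ⊓ mem k v

/-- `d * |φ(n)| ≤ f(n)`, where `φ(n)` is the set of the `k` with `(n, k) ∈ φ`: there is an
injective function `h` from the product of `d` and `φ(n)` to `f(n)`. -/
noncomputable def small (f φ d n : BSet B) : B :=
  ⨆ h : BSet B,
    (all d fun a => ⨅ k : BSet B, rel φ n k ⇨ ⨆ v : BSet B, below f n v ⊓ rel3 h a k v) ⊓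
    (all d fun a => ⨅ k : BSet B, ⨅ v : BSet B, ⨅ v' : BSet B,
      rel3 h a k v ⊓ rel3 h a k v' ⇨ eq v v') ⊓
    (all d fun a => all d fun a' => ⨅ k : BSet B, ⨅ k' : BSet B, ⨅ v : BSet B,
      rel3 h a k v ⊓ rel3 h a' k' v ⇨ eq a a' ⊓ eq k k')

/-- `φ` is a null slalom below `f`: `φ(n)` is a subset of `f(n)` for all `n`, and for all `d`,
`d * |φ(n)| ≤ f(n)` for almost all `n`. -/
noncomputable def isNull (f φ w : BSet B) : B :=
  (all w fun n => ⨅ k : BSet B, rel φ n k ⇨ below f n k) ⊓
  (all w fun d => ex w fun m => all w fun n => (mem n m)ᶜ ⇨ small f φ d n)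

/-- `x` belongs to the product of the `f(n)`: it is a set of pairs `(n, k)` with `n ∈ w`, and for
each `n ∈ w` there is exactly one `k` with `(n, k) ∈ x`, and `k < f(n)`. -/
noncomputable def isPt (f x w : BSet B) : B :=
  (all x fun p => ex w fun n => ⨆ k : BSet B, isPair p n k) ⊓
  (all w fun n => ⨆ k : BSet B, rel x n k ⊓ below f n k ⊓ ⨅ l : BSet B, rel x n l ⇨ eq l k)

/-- `x ∈ [φ]`: `x(n) ∈ φ(n)` for infinitely many `n`. -/
noncomputable def meets (x φ w : BSet B) : B :=
  all w fun m => ex w fun n => (mem n m)ᶜ ⊓ ⨆ k : BSet B, rel x n k ⊓ rel φ n k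

/-- `A` belongs to the ideal `I_f`: it is a set of elements of the product of the `f(n)`, and
there is a null slalom `φ` with `A ⊆ [φ]`. -/
noncomputable def inIdeal (f A w : BSet B) : B :=
  (all A fun x => isPt f x w) ⊓ ⨆ φ : BSet B, isNull f φ w ⊓ all A fun x => meets x φ w

/-- `J` is an ideal contained in `I_f`: its members belong to `I_f`, and each set contained in
the union of two members is a member. -/
noncomputable def isSubideal (f J w : BSet B) : B :=
  (all J fun A => inIdeal f A w) ⊓
  (all J fun A => all J fun A' => ⨅ C : BSet B,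
    (all C fun x => mem x A ⊔ mem x A') ⇨ mem C J)

/-- `add(I_f) ≤ |S|`: there is a family of members of `I_f`, indexed by `S`, such that no member
of `I_f` contains all of them. -/
noncomputable def addLe (f S w : BSet B) : B :=
  ⨆ G : BSet B, isSeq G S ⊓ (all S fun t => ⨅ A : BSet B, rel G t A ⇨ inIdeal f A w) ⊓
    ⨅ C : BSet B, inIdeal f C w ⇨ ex S fun t => ⨆ A : BSet B, rel G t A ⊓ (sub A C)ᶜ

/-- `I_f` is not the union of a family, indexed by `S`, of ideals which are properly contained
in `I_f`. -/
noncomputable def noCover (f S w : BSet B) : B :=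
  ⨅ G : BSet B, isSeq G S ⊓ (all S fun t => ⨅ J : BSet B, rel G t J ⇨
      isSubideal f J w ⊓ ⨆ A : BSet B, inIdeal f A w ⊓ (mem A J)ᶜ) ⇨
    ⨆ A : BSet B, inIdeal f A w ⊓ all S fun t => ⨅ J : BSet B, rel G t J ⇨ (mem A J)ᶜ

/-- `|S| < |T|`. -/
noncomputable def smaller (S T : BSet B) : B := embeds S T ⊓ (embeds T S)ᶜ

/-- There is a sequence `F(0)`, `F(1)`, ... of sets of increasing cardinalities such that
`add(I_f) ≤ |F(0)|` and, for each `n`, `I_f` is not the union of a family, indexed by `F(n)`, of
ideals which are properly contained in `I_f`. -/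
noncomputable def isGap (f w : BSet B) : B :=
  ⨆ F : BSet B, isSeq F w ⊓
    (all w fun n => all n fun m => ⨅ S : BSet B, ⨅ T : BSet B,
      rel F m S ⊓ rel F n T ⇨ smaller S T) ⊓
    (all w fun n => isEmpty n ⇨ ⨅ S : BSet B, rel F n S ⇨ addLe f S w) ⊓
    (all w fun n => ⨅ S : BSet B, rel F n S ⇨ noCover f S w)

end

variable (B : Type) [CompleteBooleanAlgebra B]

/-- The canonical name of the function `f`. -/
noncomputable def fN (f : ℕ → ℕ) : BSet B := sq fun n => chk (f n)

/-- The truth value in `V^B` of the sentence `isGap` for the function `f`. -/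
noncomputable def gapSentence (f : ℕ → ℕ) : B :=
  ⨆ w : BSet B, isOmega w ⊓ isGap (fN B f) w

end Pool.Agent.LibNC21
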