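import Pool.Agent.LibNC21.Base
import Pool.Agent.LibSAD21.Interp

/-!
The formula `small`: cardinalities of finite sets.
-/

set_option autoImplicit false

namespace Pool.Agent.LibNC21

open Pool.Agent.LibPlas90 Pool.Agent.LibPlas90.BSet Pool.Agent.LibTk83

/-- The truth value of `d * |p| ≤ m`, where `p` is a name of a subset of `m`. -/
def sm {B : Type} [CompleteBooleanAlgebra B] (m d : ℕ) (p : ℕ → B) : B :=
  ⨆ a : Finset ℕ, ⨆ (_ : (∀ k ∈ a, k < m) ∧ d * a.card ≤ m), ⨅ k, ⨅ (_ : k ∉ a), (p k)ᶜ

variable {B : Type} [CompleteBooleanAlgebra B]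

/-- The pigeonhole principle. -/
theorem pigeon {ι : Type} (s : Finset ι) (m : ℕ) (r : ι → ℕ → B) (c : B)
    (h1 : ∀ i ∈ s, c ≤ ⨆ v, ⨆ (_ : v < m), r i v)
    (h2 : ∀ i ∈ s, ∀ j ∈ s, i ≠ j → ∀ v, c ⊓ r i v ⊓ r j v = ⊥) (hcard : m < s.card) : c = ⊥ := by
  classical
  by_contra hc
  have key : ∀ t : Finset ι, t ⊆ s → ∃ g : ι → ℕ, (∀ i ∈ t, g i < m) ∧
      c ⊓ (⨅ i ∈ t, r i (g i)) ≠ ⊥ := by
    intro t
    induction t using Finset.induction_on with
    | empty =>
      intro _
      exact ⟨fun _ => 0, by simp, by simpa using hc⟩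
    | insert a t ha ih =>
      intro hts
      obtain ⟨g, hg1, hg2⟩ := ih ((Finset.subset_insert a t).trans hts)
      have has : a ∈ s := hts (Finset.mem_insert_self a t)
      set e := c ⊓ (⨅ i ∈ t, r i (g i)) with he
      have h3 : ∃ v, v < m ∧ e ⊓ r a v ≠ ⊥ := by
        by_contra hcon
        push Not at hcon
        apply hg2
        have h4 : e ≤ ⨆ v, ⨆ (_ : v < m), r a v := inf_le_left.trans (h1 a has)
        rw [← le_bot_iff]
        refine F.cases h4 fun v d hd h5 => F.cases h5 fun hv d' hd' h6 => ?_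
        rw [← hcon v hv]
        exact le_inf (hd'.trans hd) h6
      obtain ⟨v, hv, hne⟩ := h3
      refine ⟨Function.update g a v, ?_, ?_⟩
      · intro i hi
        rcases Finset.mem_insert.1 hi with rfl | hi
        · simpa using hv
        · have : i ≠ a := fun h => ha (h ▸ hi)
          rw [Function.update_of_ne this]
          exact hg1 i hi
      · intro hbot
        apply hne
        rw [← le_bot_iff, ← hbot]
        refine le_inf (inf_le_left.trans inf_le_left) ?_
        refine le_iInf fun i => le_iInf fun hi => ?_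
        rcases Finset.mem_insert.1 hi with rfl | hi
        · simp
        · have : i ≠ a := fun h => ha (h ▸ hi)
          rw [Function.update_of_ne this]
          exact inf_le_left.trans (inf_le_right.trans (iInf₂_le i hi))
  obtain ⟨g, hg1, hg2⟩ := key s subset_rfl
  obtain ⟨i, hi, j, hj, hij, hgij⟩ := Finset.exists_ne_map_eq_of_card_lt_of_maps_to
    (t := Finset.range m) (by simpa using hcard) (fun i hi => by simpa using hg1 i hi) (f := g)
  apply hg2
  rw [← le_bot_iff, ← h2 i hi j hj hij (g i)]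
  refine le_inf (le_inf inf_le_left ?_) ?_
  · exact inf_le_right.trans (iInf₂_le i hi)
  · refine inf_le_right.trans ((iInf₂_le j hj).trans ?_)
    rw [hgij]

/-! ### The name of `f` -/

variable (f : ℕ → ℕ)

theorem rel_fN (n : ℕ) (v : BSet B) : rel (fN B f) (chk n) v = eq v (chk (f n)) := by
  rw [rel_eq, fN, Pool.Agent.LibTk83.sq, mem_mk]
  apply le_antisymm
  · refine iSup_le fun j => ?_
    rw [top_inf_eq, eq_opr]
    by_cases h : n = j
    · subst h
      exact inf_le_right
    · rw [eq_chk h, bot_inf_eq]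
      exact bot_le
  · refine le_iSup_of_le n ?_
    rw [top_inf_eq, eq_opr, eq_refl, top_inf_eq]

theorem below_fN (n : ℕ) (k : BSet B) : below (fN B f) (chk n) k = mem k (chk (f n)) := by
  unfold below
  apply le_antisymm
  · refine iSup_le fun v => ?_
    rw [rel_fN]
    exact mem_congr_right _ _ _
  · refine le_iSup_of_le (chk (f n)) ?_
    rw [rel_fN, eq_refl, top_inf_eq]

theorem below_chk_of_lt {n k : ℕ} (h : k < f n) : below (fN B f) (chk n) (chk k) = ⊤ := by
  rw [below_fN, mem_chk_of_lt h]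

theorem below_chk_of_not {n k : ℕ} (h : ¬ k < f n) : below (fN B f) (chk n) (chk k) = ⊥ := by
  rw [below_fN, mem_chk_chk_of_not h]

/-! ### Small sets -/

theorem small_le {φ : BSet B} {n d : ℕ} {c : B}
    (h0 : ∀ k : BSet B, c ≤ rel φ (chk n) k ⇨ below (fN B f) (chk n) k)
    (h : c ≤ small (fN B f) φ (chk d) (chk n)) :
    c ≤ sm (f n) d fun k => rel φ (chk n) (chk k) := by
  classical
  unfold small at h
  refine F.cases h fun H c1 hc1 hH => ?_
  have htot := (hH.trans inf_le_left).trans inf_le_left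
  have hinj := hH.trans inf_le_right
  have hp : ∀ k, ¬ k < f n → c1 ⊓ rel φ (chk n) (chk k) = ⊥ := by
    intro k hk
    rw [← le_bot_iff, ← below_chk_of_not f hk]
    exact F.mp (inf_le_left.trans (hc1.trans (h0 (chk k)))) inf_le_right
  have hsplit := Pool.Agent.LibSAD21.exists_split (Finset.range (f n))
    (fun k => rel φ (chk n) (chk k)) c1 (fun k hk => hp k (by simpa using hk))
  refine F.cases hsplit fun G c2 hc2 hG => ?_
  by_cases hGs : ∀ k ∈ G, k < f n
  · by_cases hcard : d * G.card ≤ f n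
    · unfold sm
      refine le_iSup_of_le G (le_iSup_of_le ⟨hGs, hcard⟩ (hG.trans inf_le_right))
    · -- contradiction
      have hbot := pigeon (B := B) (Finset.range d ×ˢ G) (f n)
        (fun q v => rel3 H (chk q.1) (chk q.2) (chk v)) c2 ?_ ?_ ?_
      · rw [hbot]
        exact bot_le
      · rintro ⟨a, k⟩ hq
        simp only [Finset.mem_product, Finset.mem_range] at hq
        have h1 : c2 ≤ rel φ (chk n) (chk k) := (hG.trans inf_le_left).trans (iInf₂_le k hq.2)
        have h2 := F.all_elim (hc2.trans htot) (F.mem_chk_of_lt hq.1)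
        have h3 := F.mp (h2.trans (iInf_le _ (chk k))) h1
        refine F.cases h3 fun v c3 hc3 h4 => ?_
        have h5 : c3 ≤ mem v (chk (f n)) := by
          rw [← below_fN]
          exact h4.trans inf_le_left
        refine F.mem_chk_cases h5 fun j hj c4 hc4 h6 => ?_
        refine le_iSup_of_le j (le_iSup_of_le hj ?_)
        exact F.ext (Ext.rel3_3 H (chk a) (chk k)) h6 (hc4.trans (h4.trans inf_le_right))
      · rintro ⟨a, k⟩ hq ⟨a', k'⟩ hq' hne v
        simp only [Finset.mem_product, Finset.mem_range] at hq hq'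
        rw [← le_bot_iff]
        have h2 := F.all_elim ((inf_le_left.trans inf_le_left).trans (hc2.trans hinj) :
          c2 ⊓ rel3 H (chk a) (chk k) (chk v) ⊓ rel3 H (chk a') (chk k') (chk v) ≤ _)
          (F.mem_chk_of_lt hq.1)
        have h3 := F.all_elim h2 (F.mem_chk_of_lt hq'.1)
        have h4 := F.mp (((h3.trans (iInf_le _ (chk k))).trans (iInf_le _ (chk k'))).trans
          (iInf_le _ (chk v))) (le_inf (inf_le_left.trans inf_le_right) inf_le_right)
        by_cases ha : a = a'
        · have hk : k ≠ k' := fun hk => hne (by rw [ha, hk])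
          exact F.eq_chk_elim (h4.trans inf_le_right) hk
        · exact F.eq_chk_elim (h4.trans inf_le_left) ha
      · rw [Finset.card_product, Finset.card_range]
        exact not_le.1 hcard
  · push Not at hGs
    obtain ⟨k, hk, hkf⟩ := hGs
    have h1 : c2 ≤ c1 ⊓ rel φ (chk n) (chk k) :=
      le_inf hc2 ((hG.trans inf_le_left).trans (iInf₂_le k hk))
    rw [hp k (not_lt.2 hkf)] at h1
    exact h1.trans bot_le

/-- The name of an injective function from the product of `d` and `G`. -/
noncomputable def hN {d m : ℕ} {G : Finset ℕ} (g : Fin d × G → Fin m) : BSet B :=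
  mk (Fin d × G) (fun q => opr (opr (chk (q.1 : ℕ)) (chk (q.2 : ℕ))) (chk (g q : ℕ)))
    (fun _ => ⊤)

theorem rel3_hN {d m : ℕ} {G : Finset ℕ} (g : Fin d × G → Fin m) (a k v : BSet B) :
    rel3 (hN g) a k v = ⨆ q : Fin d × G, eq a (chk (q.1 : ℕ)) ⊓ eq k (chk (q.2 : ℕ)) ⊓
      eq v (chk (g q : ℕ)) := by
  rw [rel3_eq, hN, mem_mk]
  exact iSup_congr fun q => by rw [top_inf_eq, eq_opr, eq_opr]

theorem le_small {φ : BSet B} {n d : ℕ} {c : B}
    (h0 : ∀ k : BSet B, c ≤ rel φ (chk n) k ⇨ below (fN B f) (chk n) k)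
    (h : c ≤ sm (f n) d fun k => rel φ (chk n) (chk k)) :
    c ≤ small (fN B f) φ (chk d) (chk n) := by
  classical
  unfold sm at h
  refine F.cases h fun G c1 hc1 h1 => F.cases h1 fun hG c2 hc2 h2 => ?_
  obtain ⟨g⟩ : Nonempty (Fin d × G ↪ Fin (f n)) := by
    apply Function.Embedding.nonempty_of_card_le
    simpa using hG.2
  unfold small
  refine le_iSup_of_le (hN g) (le_inf (le_inf ?_ ?_) ?_)
  · refine F.all_intro fun a c3 hc3 ha => le_iInf fun k => F.intro fun c4 hc4 hk => ?_
    have h3 : c4 ≤ mem k (chk (f n)) := by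
      rw [← below_fN]
      exact F.mp (hc4.trans (hc3.trans (hc2.trans (hc1.trans (h0 k))))) hk
    refine F.mem_chk_cases (hc4.trans ha) fun a' ha' c5 hc5 h4 => ?_
    refine F.mem_chk_cases (hc5.trans h3) fun k' hk' c6 hc6 h5 => ?_
    have h6 : c6 ≤ rel φ (chk n) (chk k') := F.rel2 h5 (hc6.trans (hc5.trans hk))
    by_cases hkG : k' ∈ G
    · let q : Fin d × G := (⟨a', ha'⟩, ⟨k', hkG⟩)
      refine le_iSup_of_le (chk (g q : ℕ)) (le_inf ?_ ?_)
      · exact F.top (below_chk_of_lt f (g q).2)
      · rw [rel3_hN]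
        refine le_iSup_of_le q (le_inf (le_inf ?_ ?_) ?_)
        · exact hc6.trans h4
        · exact h5
        · exact F.refl _
    · have h7 : c6 ≤ (rel φ (chk n) (chk k'))ᶜ :=
        (((hc6.trans hc5).trans hc4).trans hc3).trans (h2.trans (iInf₂_le k' hkG))
      exact F.absurd h6 h7
  · refine F.all_intro fun a c3 hc3 _ => le_iInf fun k => le_iInf fun v => le_iInf fun v' =>
      F.intro fun c4 hc4 hh => ?_
    have h3 := hh.trans inf_le_left
    have h4 := hh.trans inf_le_right
    rw [rel3_hN] at h3 h4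
    refine F.cases h3 fun q c5 hc5 h5 => F.cases (hc5.trans h4) fun q' c6 hc6 h6 => ?_
    have h5' := hc6.trans h5
    have ha : c6 ≤ eq (chk (q.1 : ℕ)) (chk (q'.1 : ℕ)) :=
      F.trans (F.symm ((h5'.trans inf_le_left).trans inf_le_left))
        ((h6.trans inf_le_left).trans inf_le_left)
    have hk : c6 ≤ eq (chk (q.2 : ℕ)) (chk (q'.2 : ℕ)) :=
      F.trans (F.symm ((h5'.trans inf_le_left).trans inf_le_right))
        ((h6.trans inf_le_left).trans inf_le_right)
    by_cases hqq : q = q'
    · subst hqq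
      exact F.trans (h5'.trans inf_le_right) (F.symm (h6.trans inf_le_right))
    · by_cases h1q : (q.1 : ℕ) = (q'.1 : ℕ)
      · have h2q : (q.2 : ℕ) ≠ (q'.2 : ℕ) := fun h2q =>
          hqq (Prod.ext (Fin.ext h1q) (Subtype.ext h2q))
        exact F.eq_chk_elim hk h2q
      · exact F.eq_chk_elim ha h1q
  · refine F.all_intro fun a c3 hc3 _ => F.all_intro fun a' c3' hc3' _ => le_iInf fun k =>
      le_iInf fun k' => le_iInf fun v => F.intro fun c4 hc4 hh => ?_
    have h3 := hh.trans inf_le_left
    have h4 := hh.trans inf_le_right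
    rw [rel3_hN] at h3 h4
    refine F.cases h3 fun q c5 hc5 h5 => F.cases (hc5.trans h4) fun q' c6 hc6 h6 => ?_
    have h5' := hc6.trans h5
    have hv : c6 ≤ eq (chk (g q : ℕ)) (chk (g q' : ℕ)) :=
      F.trans (F.symm (h5'.trans inf_le_right)) (h6.trans inf_le_right)
    by_cases hqq : q = q'
    · subst hqq
      refine le_inf ?_ ?_
      · exact F.trans ((h5'.trans inf_le_left).trans inf_le_left)
          (F.symm ((h6.trans inf_le_left).trans inf_le_left))
      · exact F.trans ((h5'.trans inf_le_left).trans inf_le_right)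
          (F.symm ((h6.trans inf_le_left).trans inf_le_right))
    · exact F.eq_chk_elim hv fun h => hqq (g.injective (Fin.ext h))

end Pool.Agent.LibNC21
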